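import Mathlib

set_option autoImplicit false

namespace Pool.Agent.P.MP_488d72_lc

open Ordinal Set MeasureTheory

noncomputable section

theorem countable_Iio {α : Ordinal.{0}} (h : α < ω₁) : (Iio α).Countable := by
  rw [← Cardinal.le_aleph0_iff_set_countable, Cardinal.mk_Iio_ordinal, Cardinal.lift_le_aleph0,
    ← Cardinal.lt_aleph_one_iff, ← Cardinal.lt_omega_iff_card_lt]
  exact h

theorem succ_lt {α : Ordinal.{0}} (h : α < ω₁) : α + 1 < ω₁ :=
  (Cardinal.isSuccLimit_omega 1).succ_lt h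

theorem countable_Iic {α : Ordinal.{0}} (h : α < ω₁) : (Iic α).Countable :=
  (countable_Iio (succ_lt h)).mono fun _ hb => lt_of_le_of_lt hb (lt_add_one α)

theorem add_nat_lt {α : Ordinal.{0}} (h : α < ω₁) (k : ℕ) : α + k < ω₁ := by
  induction k with
  | zero => simpa using h
  | succ k ih => rw [Nat.cast_succ, ← add_assoc]; exact succ_lt ih

theorem exists_bound {ι : Type} [Countable ι] (f : ι → Ordinal.{0}) (h : ∀ i, f i < ω₁) :
    ∃ η < ω₁, ∀ i, f i < η :=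
  ⟨⨆ i, f i + 1, Ordinal.iSup_lt_omega_one fun i => succ_lt (h i), fun i =>
    lt_of_lt_of_le (lt_add_one _) (Ordinal.le_iSup (fun i => f i + 1) i)⟩

/-- `x : ℕ → ℕ` codes the forest in which `b` is a child of `a` iff `x b = a + 1`.
`Le x α a` says that the node `a` has rank at most `α`. -/
def Le (x : ℕ → ℕ) (α : Ordinal.{0}) : ℕ → Prop :=
  fun a => ∀ b, x b = a + 1 → ∃ β : Iio α, Le x β.1 b
termination_by α
decreasing_by exact β.2

theorem le_iff {x : ℕ → ℕ} {α : Ordinal.{0}} {a : ℕ} :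
    Le x α a ↔ ∀ b, x b = a + 1 → ∃ β < α, Le x β b := by
  rw [Le]
  simp

theorem Le.mono {x : ℕ → ℕ} {α β : Ordinal.{0}} {a : ℕ} (h : Le x α a) (hab : α ≤ β) :
    Le x β a := by
  rw [le_iff] at h ⊢
  intro b hb
  obtain ⟨γ, hγ, h'⟩ := h b hb
  exact ⟨γ, hγ.trans_le hab, h'⟩

theorem measurable_Le {α : Ordinal.{0}} (h : α < ω₁) (a : ℕ) :
    Measurable fun x : ℕ → ℕ => Le x α a := by
  induction α using WellFoundedLT.induction generalizing a with
  | ind α ih =>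
    have : (fun x : ℕ → ℕ => Le x α a) =
        fun x => ∀ b, x b = a + 1 → ∃ β : Iio α, Le x β.1 b := by
      ext x
      rw [Le]
    rw [this]
    have := (countable_Iio h).to_subtype
    refine Measurable.forall fun b => Measurable.imp ?_ (Measurable.exists fun β => ?_)
    · exact Measurable.eq_const (f := fun x : ℕ → ℕ => x b) (measurable_pi_apply b) (a + 1)
    · exact ih β.1 β.2 (lt_trans β.2 h) b

open Classical in
/-- The rank of the node `a`, with value `ω₁` on ill-founded nodes. -/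
def rk (x : ℕ → ℕ) (a : ℕ) : Ordinal.{0} := sInf {α | Le x α a ∨ α = ω₁}

theorem rk_le_omega (x : ℕ → ℕ) (a : ℕ) : rk x a ≤ ω₁ := csInf_le' (Or.inr rfl)

theorem rk_le_of_Le {x : ℕ → ℕ} {a : ℕ} {α : Ordinal.{0}} (h : Le x α a) : rk x a ≤ α :=
  csInf_le' (Or.inl h)

theorem rk_le_iff {x : ℕ → ℕ} {a : ℕ} {α : Ordinal.{0}} (hα : α < ω₁) :
    rk x a ≤ α ↔ Le x α a := by
  refine ⟨fun h => ?_, rk_le_of_Le⟩
  have : rk x a ∈ {α | Le x α a ∨ α = ω₁} := csInf_mem ⟨ω₁, Or.inr rfl⟩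
  rcases this with h' | h'
  · exact h'.mono h
  · exact absurd (h' ▸ h) hα.not_ge

theorem rk_le_iff' {x : ℕ → ℕ} {a : ℕ} {α : Ordinal.{0}} (hα : α < ω₁) :
    rk x a ≤ α ↔ ∀ b, x b = a + 1 → rk x b < α := by
  rw [rk_le_iff hα, le_iff]
  refine forall₂_congr fun b _ => ⟨fun ⟨β, hβ, h⟩ => (rk_le_of_Le h).trans_lt hβ, fun h => ?_⟩
  exact ⟨rk x b, h, (rk_le_iff (h.trans hα)).mp le_rfl⟩

theorem measurableSet_rk_le {α : Ordinal.{0}} (h : α < ω₁) :
    MeasurableSet {x : ℕ → ℕ | rk x 0 ≤ α} := by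
  simp only [rk_le_iff h]
  exact (measurable_Le h 0).setOf

theorem measurableSet_rk_lt {α : Ordinal.{0}} (h : α < ω₁) :
    MeasurableSet {x : ℕ → ℕ | rk x 0 < α} := by
  have : {x : ℕ → ℕ | rk x 0 < α} = ⋃ β ∈ Iio α, {x | rk x 0 ≤ β} := by
    ext x
    simp only [mem_iUnion, exists_prop, mem_ofPred_eq, mem_Iio]
    exact ⟨fun hx => ⟨_, hx, le_rfl⟩, fun ⟨β, hβ, hx⟩ => hx.trans_lt hβ⟩
  rw [this]
  exact MeasurableSet.biUnion (countable_Iio h) fun β hβ => measurableSet_rk_le (lt_trans hβ h)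

theorem measurableSet_rk_eq {α : Ordinal.{0}} (h : α < ω₁) :
    MeasurableSet {x : ℕ → ℕ | rk x 0 = α} := by
  have : {x : ℕ → ℕ | rk x 0 = α} = {x | rk x 0 ≤ α} \ {x | rk x 0 < α} := by
    ext x
    simp only [mem_ofPred_eq, mem_sdiff, not_lt]
    exact le_antisymm_iff
  rw [this]
  exact (measurableSet_rk_le h).diff (measurableSet_rk_lt h)

/-- `Z` is a simulation of the forest `x` by the forest `y`. -/
def IsSim (x y : ℕ → ℕ) (Z : ℕ × ℕ → Bool) : Prop :=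
  Z (0, 0) = true ∧ ∀ a b a', Z (a, b) = true → x a' = a + 1 →
    ∃ b', y b' = b + 1 ∧ Z (a', b') = true

theorem rk_le_of_sim {x y : ℕ → ℕ} {Z : ℕ × ℕ → Bool} (h : IsSim x y Z) : rk x 0 ≤ rk y 0 := by
  have key : ∀ α : Ordinal.{0}, ∀ a b, Z (a, b) = true → Le y α b → Le x α a := by
    intro α
    induction α using WellFoundedLT.induction with
    | ind α ih =>
      intro a b hab hy
      rw [le_iff] at hy ⊢
      intro a' ha'
      obtain ⟨b', hb', hZ⟩ := h.2 a b a' hab ha'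
      obtain ⟨β, hβ, hle⟩ := hy b' hb'
      exact ⟨β, hβ, ih β hβ a' b' hZ hle⟩
  rcases (rk_le_omega y 0).eq_or_lt with h1 | h1
  · rw [h1]; exact rk_le_omega x 0
  · exact rk_le_of_Le (key _ 0 0 h.1 ((rk_le_iff h1).mp le_rfl))

theorem exists_sim {x y : ℕ → ℕ} (h : rk x 0 ≤ rk y 0) : ∃ Z, IsSim x y Z := by
  classical
  refine ⟨fun p => decide (rk x p.1 ≤ rk y p.2), by simpa using h, fun a b a' hab ha' => ?_⟩
  simp only [decide_eq_true_eq] at hab ⊢
  by_contra hcon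
  push Not at hcon
  rcases (rk_le_omega x a').eq_or_lt with h1 | h1
  · obtain ⟨η, hη, hb⟩ := exists_bound (fun b' : {b' // y b' = b + 1} => rk y b'.1)
      (fun b' => h1 ▸ hcon b'.1 b'.2)
    have h2 : rk y b ≤ η := (rk_le_iff' hη).mpr fun b' hb' => hb ⟨b', hb'⟩
    have h3 := (rk_le_iff' hη).mp (hab.trans h2) a' ha'
    exact absurd (h1 ▸ h3) hη.le.not_gt
  · have h2 : rk y b ≤ rk x a' := (rk_le_iff' h1).mpr hcon
    exact absurd ((rk_le_iff' h1).mp (hab.trans h2) a' ha') (lt_irrefl _)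

theorem analytic_le : AnalyticSet {p : (ℕ → ℕ) × (ℕ → ℕ) | rk p.1 0 ≤ rk p.2 0} := by
  have : {p : (ℕ → ℕ) × (ℕ → ℕ) | rk p.1 0 ≤ rk p.2 0} =
      Prod.fst '' {q : ((ℕ → ℕ) × (ℕ → ℕ)) × (ℕ × ℕ → Bool) | IsSim q.1.1 q.1.2 q.2} := by
    ext p
    constructor
    · intro h
      obtain ⟨Z, hZ⟩ := exists_sim h
      exact ⟨(p, Z), hZ, rfl⟩
    · rintro ⟨q, hq, rfl⟩
      exact rk_le_of_sim hq
  rw [this]
  refine MeasurableSet.analyticSet_image (Measurable.setOf ?_) measurable_fst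
  have hZ : ∀ c : ℕ × ℕ, Measurable
      fun q : ((ℕ → ℕ) × (ℕ → ℕ)) × (ℕ × ℕ → Bool) => q.2 c = true := fun c =>
    Measurable.eq_const (by fun_prop) true
  have hx : ∀ a k : ℕ, Measurable
      fun q : ((ℕ → ℕ) × (ℕ → ℕ)) × (ℕ × ℕ → Bool) => q.1.1 a = k := fun a k =>
    Measurable.eq_const (by fun_prop) k
  have hy : ∀ a k : ℕ, Measurable
      fun q : ((ℕ → ℕ) × (ℕ → ℕ)) × (ℕ × ℕ → Bool) => q.1.2 a = k := fun a k =>
    Measurable.eq_const (by fun_prop) k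
  exact (hZ _).and (Measurable.forall fun a => Measurable.forall fun b =>
    Measurable.forall fun a' => (hZ _).imp ((hx _ _).imp
      (Measurable.exists fun b' => (hy _ _).and (hZ _))))

theorem analytic_eq : AnalyticSet {p : (ℕ → ℕ) × (ℕ → ℕ) | rk p.1 0 = rk p.2 0} := by
  have h2 : AnalyticSet {p : (ℕ → ℕ) × (ℕ → ℕ) | rk p.2 0 ≤ rk p.1 0} := by
    have := analytic_le.image_of_continuous (continuous_swap)
    rwa [image_swap_eq_preimage_swap] at this
  have : {p : (ℕ → ℕ) × (ℕ → ℕ) | rk p.1 0 = rk p.2 0} = ⋂ i : Bool,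
      if i then {p : (ℕ → ℕ) × (ℕ → ℕ) | rk p.1 0 ≤ rk p.2 0}
        else {p : (ℕ → ℕ) × (ℕ → ℕ) | rk p.2 0 ≤ rk p.1 0} := by
    ext p
    rw [mem_iInter, Bool.forall_bool]
    exact ⟨fun h => ⟨le_of_eq (Eq.symm h), le_of_eq h⟩, fun h => le_antisymm h.2 h.1⟩
  rw [this]
  refine AnalyticSet.iInter fun i => ?_
  cases i
  · simpa using h2
  · simpa using analytic_le

end

end Pool.Agent.P.MP_488d72_lc
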