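import Mathlib
import Pool.Agent.P.MP_488d72_lc.Rank

set_option autoImplicit false

namespace Pool.Agent.P.MP_488d72_lc

open Ordinal Set MeasureTheory PiNat Filter

noncomputable section

/-- A letter of the tagged forcing: an ordinal tag and a proposed parent. -/
structure Letter where
  tag : Ordinal.{0}
  par : ℕ

instance : TopologicalSpace Letter := ⊥
instance : DiscreteTopology Letter := ⟨rfl⟩

abbrev Om : Type 1 := ℕ → Letter

def Prec (τ σ : Ordinal.{0}) : Prop := τ < σ ∨ ω₁ ≤ σ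

open Classical in
/-- The forest coded by a tagged sequence. -/
def code (g : Om) : ℕ → ℕ := fun n =>
  if (g n).par < n ∧ Prec (g n).tag (g (g n).par).tag then (g n).par + 1 else 0

theorem code_congr {g h : Om} {n i : ℕ} (H : h ∈ cylinder g n) (hi : i < n) :
    code h i = code g i := by
  have h1 : h i = g i := H i hi
  unfold code
  rw [h1]
  by_cases h2 : (g i).par < i
  · rw [H _ (h2.trans hi)]
  · simp [h2]

theorem code_eq_succ {g : Om} {b a : ℕ} (h : code g b = a + 1) :
    (g b).par = a ∧ a < b ∧ Prec (g b).tag (g a).tag := by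
  unfold code at h
  split_ifs at h with h1
  have : (g b).par = a := by omega
  subst this
  exact ⟨rfl, h1⟩

theorem code_of {g : Om} {b a : ℕ} (h1 : (g b).par = a) (h2 : a < b)
    (h3 : Prec (g b).tag (g a).tag) : code g b = a + 1 := by
  subst h1
  unfold code
  rw [if_pos ⟨h2, h3⟩]

theorem code_zero (g : Om) : code g 0 = 0 := by
  unfold code
  simp

theorem continuous_code : Continuous code := by
  refine continuous_pi fun n => IsLocallyConstant.continuous ?_
  rw [IsLocallyConstant.iff_exists_open]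
  intro g
  exact ⟨cylinder g (n + 1), isOpen_cylinder _ g _, self_mem_cylinder _ _,
    fun h hh => code_congr hh (Nat.lt_succ_self n)⟩

/-- The condition `(g, n)` forces `S`: comeagre many extensions lie in `S`. -/
def Forces (g : Om) (n : ℕ) (S : Set Om) : Prop :=
  ∀ᶠ h in residual Om, h ∈ cylinder g n → h ∈ S

theorem cyl_sub {g h : Om} {n m : ℕ} (H : h ∈ cylinder g n) (hnm : n ≤ m) :
    cylinder h m ⊆ cylinder g n := fun _ hk i hi => (hk i (hi.trans_le hnm)).trans (H i hi)

theorem Forces.ext {g h : Om} {n m : ℕ} {S : Set Om} (hS : Forces g n S)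
    (H : h ∈ cylinder g n) (hnm : n ≤ m) : Forces h m S :=
  Filter.Eventually.mono hS fun _ hk hk' => hk (cyl_sub H hnm hk')

theorem forces_of_subset {g : Om} {n : ℕ} {S : Set Om} (h : cylinder g n ⊆ S) : Forces g n S :=
  Filter.Eventually.of_forall h

theorem Forces.exists {g : Om} {n : ℕ} {S : Set Om} (hS : Forces g n S) :
    ∃ h ∈ cylinder g n, h ∈ S := by
  obtain ⟨h, h1, h2⟩ := (dense_of_mem_residual hS).inter_open_nonempty _
    (isOpen_cylinder _ g n) ⟨g, self_mem_cylinder _ _⟩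
  exact ⟨h, h1, h2 h1⟩

theorem Forces.and {g : Om} {n : ℕ} {S T : Set Om} (hS : Forces g n S) (hT : Forces g n T) :
    Forces g n (S ∩ T) :=
  (Filter.Eventually.and hS hT).mono fun _ hk hk' => ⟨hk.1 hk', hk.2 hk'⟩

theorem Forces.mono {g : Om} {n : ℕ} {S T : Set Om} (hS : Forces g n S) (h : S ⊆ T) :
    Forces g n T :=
  Filter.Eventually.mono hS fun _ hk hk' => h (hk hk')

theorem forces_iInter {g : Om} {n : ℕ} {S : ℕ → Set Om} :
    Forces g n (⋂ i, S i) ↔ ∀ i, Forces g n (S i) := by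
  refine ⟨fun h i => h.mono (iInter_subset _ i), fun h => ?_⟩
  exact (eventually_countable_forall.mpr h).mono fun k hk hk' => mem_iInter.mpr fun i => hk i hk'

theorem exists_cyl {U : Set Om} (hU : IsOpen U) {h : Om} (hh : h ∈ U) :
    ∃ m, cylinder h m ⊆ U := by
  obtain ⟨_, ⟨x, m, rfl⟩, h1, h2⟩ :=
    (isTopologicalBasis_cylinders (fun _ : ℕ => Letter)).exists_subset_of_mem_open hh hU
  exact ⟨m, (mem_cylinder_iff_eq.mp h1).symm ▸ h2⟩

theorem forces_compl {g : Om} {n : ℕ} {S : Set Om} (hS : BaireMeasurableSet S) :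
    Forces g n Sᶜ ↔ ∀ h ∈ cylinder g n, ∀ m, n ≤ m → ¬ Forces h m S := by
  constructor
  · intro H h hh m hm hF
    obtain ⟨k, -, h1, h2⟩ := ((H.ext hh hm).and hF).exists
    exact h1 h2
  · intro H
    obtain ⟨U, hU, hSU⟩ := hS.residualEq_isOpen
    have hSU' : ∀ᶠ k in residual Om, k ∈ S ↔ k ∈ U := hSU.mem_iff
    refine hSU'.mono fun k hk hk' hkS => ?_
    obtain ⟨m, hm⟩ := exists_cyl hU (hk.mp hkS)
    refine H k hk' (max n m) (le_max_left _ _) (hSU'.mono fun l hl hl' => hl.mpr ?_)
    exact hm (cylinder_anti k (le_max_right _ _) hl')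

/-- The two conditions of length `n` code the same finite forest and their tags agree
below `η`. -/
def Sim (η : Ordinal.{0}) (n : ℕ) (g g' : Om) : Prop :=
  ∀ i < n, code g i = code g' i ∧ min (g i).tag η = min (g' i).tag η

theorem Sim.symm {η : Ordinal.{0}} {n : ℕ} {g g' : Om} (h : Sim η n g g') : Sim η n g' g :=
  fun i hi => ⟨(h i hi).1.symm, (h i hi).2.symm⟩

theorem Sim.mono {η η' : Ordinal.{0}} {n : ℕ} {g g' : Om} (h : Sim η n g g') (hη : η' ≤ η) :
    Sim η' n g g' := fun i hi => ⟨(h i hi).1, by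
  rw [← min_eq_right hη, ← min_assoc, ← min_assoc, (h i hi).2]⟩

theorem retag_one {η : Ordinal.{0}} (hη : η < ω₁) {n : ℕ} {g g' h : Om}
    (H : Sim (η + 1) n g g') (hh : h ∈ cylinder g n) :
    ∃ h' ∈ cylinder g' n, Sim η (n + 1) h h' := by
  classical
  let h' : Om := Function.update g' n
    ⟨min (h n).tag η, if code h n = 0 then n else (h n).par⟩
  have hh' : h' ∈ cylinder g' n := update_mem_cylinder _ _ _
  have hn : h' n = ⟨min (h n).tag η, if code h n = 0 then n else (h n).par⟩ :=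
    Function.update_self _ _ _
  refine ⟨h', hh', fun i hi => ?_⟩
  rcases (Nat.lt_succ_iff.mp hi).eq_or_lt with rfl | hi
  · refine ⟨?_, by rw [hn]; simp⟩
    rcases h0 : code h i with _ | a
    · unfold code
      rw [hn]
      simp [h0]
    · obtain ⟨h1, h2, h3⟩ := code_eq_succ h0
      symm
      refine code_of (by rw [hn]; simp [h0, h1]) h2 (Or.inl ?_)
      rw [hn, hh' a h2]
      have h4 := (H a h2).2
      rw [← hh a h2] at h4
      have h5 : min (h i).tag η < min (h a).tag (η + 1) := by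
        refine lt_min ?_ ((min_le_right _ _).trans_lt (lt_add_one η))
        rcases h3 with h3 | h3
        · exact (min_le_left _ _).trans_lt h3
        · exact (min_le_right _ _).trans_lt (hη.trans_le h3)
      exact (h4 ▸ h5).trans_le (min_le_left _ _)
  · have := (H.mono (lt_add_one η).le) i hi
    rw [code_congr hh hi, code_congr hh' hi, hh i hi, hh' i hi]
    exact this

theorem retag {η : Ordinal.{0}} (hη : η < ω₁) (k : ℕ) {n : ℕ} {g g' h : Om}
    (H : Sim (η + k) n g g') (hh : h ∈ cylinder g n) :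
    ∃ h' ∈ cylinder g' n, Sim η (n + k) h h' := by
  induction k generalizing n g g' with
  | zero =>
    refine ⟨g', self_mem_cylinder _ _, fun i hi => ?_⟩
    have := H i hi
    rw [code_congr hh hi, hh i hi]
    simpa using this
  | succ k ih =>
    rw [Nat.cast_succ, ← add_assoc] at H
    obtain ⟨h₁, hh₁, H₁⟩ := retag_one (add_nat_lt hη k) H hh
    obtain ⟨h₂, hh₂, H₂⟩ := ih H₁ (self_mem_cylinder _ _)
    exact ⟨h₂, cyl_sub hh₁ (Nat.le_succ n) hh₂, by rwa [add_assoc, add_comm 1 k] at H₂⟩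

/-- A property of conditions that only depends on tags below `η`. -/
def Inv (η : Ordinal.{0}) (Φ : Om → ℕ → Prop) : Prop :=
  ∀ n g g', Sim η n g g' → Φ g n → Φ g' n

theorem Inv.mono {η η' : Ordinal.{0}} {Φ : Om → ℕ → Prop} (h : Inv η Φ) (hη : η ≤ η') :
    Inv η' Φ := fun n g g' H => h n g g' (H.mono hη)

theorem exists_jump {η : Ordinal.{0}} (hη : η < ω₁) :
    ∃ η' < ω₁, ∀ Φ : Om → ℕ → Prop, Inv η Φ →
      Inv η' fun g n => ∀ h ∈ cylinder g n, ∀ m, n ≤ m → ¬ Φ h m := by
  obtain ⟨η', hη', hk⟩ := exists_bound (fun k : ℕ => η + k) (add_nat_lt hη)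
  refine ⟨η', hη', fun Φ hΦ n g g' H hg h' hh' m hm hF => ?_⟩
  obtain ⟨k, rfl⟩ := Nat.exists_eq_add_of_le hm
  obtain ⟨h, hh, H'⟩ := retag hη k (H.symm.mono (hk k).le) hh'
  exact hg h hh _ hm (hΦ _ _ _ H' hF)

theorem measurable_jump {Y : Type} [MeasurableSpace Y] {η : Ordinal.{0}} (hη : η < ω₁)
    {Φ : Y → Om → ℕ → Prop} (hΦ : ∀ y, Inv η (Φ y))
    (hm : ∀ g n, Measurable fun y => Φ y g n) (g : Om) (n : ℕ) :
    Measurable fun y => ∀ h ∈ cylinder g n, ∀ m, n ≤ m → ¬ Φ y h m := by
  have := (countable_Iic hη).to_subtype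
  let key : (m : ℕ) → Om → Fin m → ℕ × Iic η := fun m h i =>
    (code h i, ⟨min (h i).tag η, mem_Iic.mpr (min_le_right _ _)⟩)
  have hkey : ∀ m h h', key m h = key m h' → Sim η m h h' := by
    intro m h h' H i hi
    have := congrFun H ⟨i, hi⟩
    simpa [key] using this
  have : (fun y => ∀ h ∈ cylinder g n, ∀ m, n ≤ m → ¬ Φ y h m) =
      fun y => ∀ m, ∀ c : Fin m → ℕ × Iic η,
        ∀ h ∈ cylinder g n, n ≤ m → key m h = c → ¬ Φ y h m := by
    ext y
    exact ⟨fun H m c h hh hm _ => H h hh m hm, fun H h hh m hm => H m _ h hh hm rfl⟩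
  rw [this]
  refine Measurable.forall fun m => Measurable.forall fun c => ?_
  by_cases hex : ∃ h ∈ cylinder g n, n ≤ m ∧ key m h = c
  · obtain ⟨h₀, h1, h2, h3⟩ := hex
    have : (fun y => ∀ h ∈ cylinder g n, n ≤ m → key m h = c → ¬ Φ y h m) =
        fun y => ¬ Φ y h₀ m := by
      ext y
      exact ⟨fun H => H h₀ h1 h2 h3,
        fun H h _ _ hk hF => H (hΦ y _ _ _ (hkey m _ _ (hk.trans h3.symm)) hF)⟩
    rw [this]
    exact (hm h₀ m).not
  · have : (fun y => ∀ h ∈ cylinder g n, n ≤ m → key m h = c → ¬ Φ y h m) = fun _ => True := by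
      ext y
      exact ⟨fun _ => trivial, fun _ h h1 h2 h3 => absurd ⟨h, h1, h2, h3⟩ hex⟩
    rw [this]
    exact measurable_const

/-- The section of `A` at `y`, pulled back to tagged sequences. -/
def sec {Y : Type} (A : Set (Y × (ℕ → ℕ))) (y : Y) : Set Om := {g | (y, code g) ∈ A}

theorem baire_sec {Y : Type} [MeasurableSpace Y] {A : Set (Y × (ℕ → ℕ))}
    (hA : MeasurableSet A) (y : Y) : BaireMeasurableSet (sec A y) := by
  borelize Om
  exact MeasurableSet.baireMeasurableSet
    ((measurable_prodMk_left.comp continuous_code.measurable) hA)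

def Nice {Y : Type} [MeasurableSpace Y] (A : Set (Y × (ℕ → ℕ))) : Prop :=
  MeasurableSet A ∧ ∃ η < ω₁, (∀ y, Inv η fun g n => Forces g n (sec A y)) ∧
    ∀ g n, Measurable fun y => Forces g n (sec A y)

theorem Nice.compl {Y : Type} [MeasurableSpace Y] {A : Set (Y × (ℕ → ℕ))} (h : Nice A) :
    Nice Aᶜ := by
  obtain ⟨hA, η, hη, h1, h2⟩ := h
  obtain ⟨η', hη', hj⟩ := exists_jump hη
  have e : ∀ y g n, Forces g n (sec Aᶜ y) ↔
      ∀ h ∈ cylinder g n, ∀ m, n ≤ m → ¬ Forces h m (sec A y) :=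
    fun y g n => forces_compl (baire_sec hA y)
  refine ⟨hA.compl, η', hη', fun y => ?_, fun g n => ?_⟩
  · simp only [e]
    exact hj _ (h1 y)
  · simp only [e]
    exact measurable_jump hη h1 h2 g n

theorem Nice.iInter {Y : Type} [MeasurableSpace Y] {A : ℕ → Set (Y × (ℕ → ℕ))}
    (h : ∀ i, Nice (A i)) : Nice (⋂ i, A i) := by
  choose hA η hη h1 h2 using h
  obtain ⟨η', hη', hb⟩ := exists_bound η hη
  have e : ∀ y g n, Forces g n (sec (⋂ i, A i) y) ↔ ∀ i, Forces g n (sec (A i) y) := by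
    intro y g n
    rw [← forces_iInter]
    congr! 1
    ext g
    simp [sec]
  refine ⟨MeasurableSet.iInter hA, η', hη', fun y => ?_, fun g n => ?_⟩
  · simp only [e]
    exact fun n g g' H hg i => (h1 i y).mono (hb i).le n g g' H (hg i)
  · simp only [e]
    exact Measurable.forall fun i => h2 i g n

theorem nice_fst {Y : Type} [MeasurableSpace Y] {B : Set Y} (hB : MeasurableSet B) :
    Nice (Prod.fst ⁻¹' B : Set (Y × (ℕ → ℕ))) := by
  have e : ∀ y g n, Forces g n (sec (Prod.fst ⁻¹' B : Set (Y × (ℕ → ℕ))) y) ↔ y ∈ B := by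
    intro y g n
    constructor
    · intro H
      obtain ⟨h, -, hh⟩ := H.exists
      exact hh
    · intro H
      exact forces_of_subset fun _ _ => H
  refine ⟨measurable_fst hB, 0, omega_pos 1, fun y => ?_, fun g n => ?_⟩
  · simp only [e]
    exact fun _ _ _ _ h => h
  · simp only [e]
    exact measurableSet_setOfPred.mp hB

theorem nice_snd {Y : Type} [MeasurableSpace Y] (i : ℕ) (s : Set ℕ) :
    Nice ({p | p.2 i ∈ s} : Set (Y × (ℕ → ℕ))) := by
  have e : ∀ (y : Y) g n, Forces g n (sec {p | p.2 i ∈ s} y) ↔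
      ∀ h ∈ cylinder g n, ∀ m, n ≤ m → ¬ (i < m ∧ code h i ∉ s) := by
    intro y g n
    constructor
    · rintro H h hh m hm ⟨h1, h2⟩
      obtain ⟨k, hk, hk'⟩ := (H.ext hh hm).exists
      exact h2 (code_congr hk h1 ▸ hk')
    · intro H
      refine forces_of_subset fun h hh => ?_
      by_contra hcon
      exact H h hh (max n (i + 1)) (le_max_left _ _) ⟨by omega, hcon⟩
  obtain ⟨η', hη', hj⟩ := exists_jump (omega_pos 1)
  refine ⟨((measurable_pi_apply i).comp measurable_snd) (MeasurableSet.of_discrete (s := s)),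
    η', hη', fun y => ?_, fun g n => ?_⟩
  · simp only [e]
    exact hj (fun h m => i < m ∧ code h i ∉ s)
      fun n g g' H hg => ⟨hg.1, (H i hg.1).1 ▸ hg.2⟩
  · simp only [e]
    exact measurable_const

theorem nice_of_measurableSet {Y : Type} [mY : MeasurableSpace Y] {A : Set (Y × (ℕ → ℕ))}
    (hA : MeasurableSet A) : Nice A := by
  let M : MeasurableSpace (Y × (ℕ → ℕ)) :=
    { MeasurableSet' := Nice
      measurableSet_empty := by simpa using nice_fst (Y := Y) MeasurableSet.empty
      measurableSet_compl := fun _ h => h.compl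
      measurableSet_iUnion := fun f hf => by
        simpa [compl_iInter] using (Nice.iInter fun i => (hf i).compl).compl }
  have : (Prod.instMeasurableSpace : MeasurableSpace (Y × (ℕ → ℕ))) ≤ M := by
    refine sup_le ?_ ?_
    · rintro _ ⟨B, hB, rfl⟩
      exact nice_fst hB
    · rw [MeasurableSpace.pi, MeasurableSpace.comap_iSup, iSup_le_iff]
      rintro i _ ⟨_, ⟨s, -, rfl⟩, rfl⟩
      exact nice_snd i s
  exact this A hA

end

end Pool.Agent.P.MP_488d72_lc
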