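import Mathlib
import Pool.Agent.P.MP_488d72_lc.Force

set_option autoImplicit false

namespace Pool.Agent.P.MP_488d72_lc

open Ordinal Set MeasureTheory PiNat Filter

noncomputable section

theorem generic_one (l : Letter) (a : ℕ) : ∀ᶠ g in residual Om, ∃ b, a < b ∧ g b = l := by
  refine residual_of_dense_open ?_ ?_
  · have : {g : Om | ∃ b, a < b ∧ g b = l} = ⋃ b, ⋃ (_ : a < b), (fun g : Om => g b) ⁻¹' {l} := by
      ext g
      simp
    rw [this]
    exact isOpen_iUnion fun b => isOpen_iUnion fun _ =>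
      (isOpen_discrete _).preimage (continuous_apply b)
  · rw [dense_iff_inter_open]
    rintro U hU ⟨h, hh⟩
    obtain ⟨m, hm⟩ := exists_cyl hU hh
    refine ⟨Function.update h (max m (a + 1)) l,
      hm (cylinder_anti h (le_max_left _ _) (update_mem_cylinder _ _ _)), max m (a + 1),
      by omega, Function.update_self _ _ _⟩

theorem generic_set {B : Set Ordinal.{0}} (hB : B.Countable) :
    ∀ᶠ g in residual Om, ∀ a, ∀ β ∈ B, ∃ b, a < b ∧ g b = ⟨β, a⟩ :=
  eventually_countable_forall.mpr fun a =>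
    (eventually_countable_ball hB).mpr fun β _ => generic_one ⟨β, a⟩ a

theorem Le_code (g : Om) {α : Ordinal.{0}} (hα : α < ω₁) :
    ∀ a, (g a).tag ≤ α → Le (code g) α a := by
  induction α using WellFoundedLT.induction with
  | ind α ih =>
    intro a ha
    rw [le_iff]
    intro b hb
    obtain ⟨-, -, h3⟩ := code_eq_succ hb
    rcases h3 with h3 | h3
    · exact ⟨(g b).tag, h3.trans_le ha, ih _ (h3.trans_le ha) ((h3.trans_le ha).trans hα) b le_rfl⟩
    · exact absurd (h3.trans ha) hα.not_ge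

theorem not_Le_top {g : Om} (hg : ∀ a, ∃ b, a < b ∧ g b = ⟨ω₁, a⟩) (δ : Ordinal.{0}) :
    ∀ a, (g a).tag = ω₁ → ¬ Le (code g) δ a := by
  induction δ using WellFoundedLT.induction with
  | ind δ ih =>
    intro a ha H
    obtain ⟨b, hab, hb⟩ := hg a
    obtain ⟨β, hβ, H'⟩ := le_iff.mp H b (code_of (by rw [hb]) hab (Or.inr ha.ge))
    exact ih β hβ b (by rw [hb]) H'

theorem tag_le_of_Le {g : Om} {α : Ordinal.{0}} (hg : ∀ a, ∀ β < α, ∃ b, a < b ∧ g b = ⟨β, a⟩)
    (δ : Ordinal.{0}) : ∀ a, (g a).tag ≤ α → Le (code g) δ a → (g a).tag ≤ δ := by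
  induction δ using WellFoundedLT.induction with
  | ind δ ih =>
    intro a ha H
    by_contra hcon
    push Not at hcon
    obtain ⟨b, hab, hb⟩ := hg a δ (hcon.trans_le ha)
    obtain ⟨β, hβ, H'⟩ := le_iff.mp H b (code_of (by rw [hb]) hab (Or.inl (by rw [hb]; exact hcon)))
    have := ih β hβ b (by rw [hb]; exact (hcon.trans_le ha).le) H'
    rw [hb] at this
    exact absurd hβ (not_lt.mpr this)

/-- The condition that gives the root the tag `α`. -/
def root (α : Ordinal.{0}) : Om := fun _ => ⟨α, 0⟩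

theorem forces_rk {α : Ordinal.{0}} (hα : α ≤ ω₁) :
    Forces (root α) 1 {g | rk (code g) 0 = α} := by
  rcases hα.eq_or_lt with rfl | hα
  · refine (generic_set (countable_singleton ω₁)).mono fun g hg hc => ?_
    have h0 : (g 0).tag = ω₁ := by rw [hc 0 one_pos]; rfl
    refine (rk_le_omega _ _).eq_or_lt.resolve_right fun h => ?_
    exact not_Le_top (fun a => hg a _ rfl) _ 0 h0 ((rk_le_iff h).mp le_rfl)
  · refine (generic_set (countable_Iio hα)).mono fun g hg hc => ?_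
    have h0 : (g 0).tag = α := by rw [hc 0 one_pos]; rfl
    have h1 : rk (code g) 0 ≤ α := rk_le_of_Le (Le_code g hα 0 h0.le)
    refine le_antisymm h1 ?_
    rw [← h0]
    exact tag_le_of_Le hg _ 0 h0.le ((rk_le_iff (h1.trans_lt hα)).mp le_rfl)

theorem sim_root {α β η : Ordinal.{0}} (h1 : η ≤ α) (h2 : η ≤ β) : Sim η 1 (root α) (root β) := by
  intro i hi
  obtain rfl : i = 0 := by omega
  exact ⟨by rw [code_zero, code_zero], by simp [root, h1, h2]⟩

theorem exists_rk_top : ∃ x, rk x 0 = ω₁ := by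
  obtain ⟨g, -, hg⟩ := (forces_rk le_rfl).exists
  exact ⟨_, hg⟩

theorem not_measurableSet_top : ¬ MeasurableSet {x : ℕ → ℕ | rk x 0 = ω₁} := by
  intro h
  obtain ⟨-, η, hη, h1, -⟩ := nice_of_measurableSet (Y := Unit) (measurable_snd h)
  have h2 := h1 () 1 _ _ (sim_root hη.le le_rfl) (forces_rk le_rfl)
  obtain ⟨g, -, h3, h4⟩ := (h2.and (forces_rk hη.le)).exists
  exact hη.ne (h4.symm.trans h3)

theorem measurableSet_forces {A : Set ((ℕ → ℕ) × (ℕ → ℕ))} (hA : MeasurableSet A) :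
    MeasurableSet {x : ℕ → ℕ | Forces (root (rk x 0)) 1 (sec A x)} := by
  obtain ⟨-, η, hη, h1, h2⟩ := nice_of_measurableSet hA
  have : {x : ℕ → ℕ | Forces (root (rk x 0)) 1 (sec A x)} =
      (⋃ α ∈ Iio η, {x | rk x 0 = α} ∩ {x | Forces (root α) 1 (sec A x)}) ∪
        ({x | rk x 0 < η}ᶜ ∩ {x | Forces (root η) 1 (sec A x)}) := by
    ext x
    simp only [mem_ofPred_eq, mem_union, mem_iUnion, mem_inter_iff, mem_Iio, exists_prop,
      mem_compl_iff, not_lt]
    constructor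
    · intro H
      rcases lt_or_ge (rk x 0) η with h | h
      · exact Or.inl ⟨_, h, rfl, H⟩
      · exact Or.inr ⟨h, h1 x 1 _ _ (sim_root h le_rfl) H⟩
    · rintro (⟨α, -, rfl, H⟩ | ⟨h, H⟩)
      · exact H
      · exact h1 x 1 _ _ (sim_root le_rfl h) H
  rw [this]
  exact (MeasurableSet.biUnion (countable_Iio hη) fun α hα =>
    (measurableSet_rk_eq (lt_trans hα hη)).inter (h2 _ _).setOf).union
      ((measurableSet_rk_lt hη).compl.inter (h2 _ _).setOf)

/-- The ideal attached to a class `C`. -/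
def idl (C : Set (ℕ → ℕ)) : Set (Set (ℕ → ℕ)) :=
  {S | S ⊆ C ∧ ∀ x ∈ C, Forces (root (rk x 0)) 1 {g | code g ∉ S}}

theorem empty_mem_idl (C : Set (ℕ → ℕ)) : ∅ ∈ idl C :=
  ⟨empty_subset _, fun _ _ => forces_of_subset fun _ _ => notMem_empty _⟩

theorem idl_mono {C S T : Set (ℕ → ℕ)} (hS : S ∈ idl C) (h : T ⊆ S) : T ∈ idl C :=
  ⟨h.trans hS.1, fun x hx => (hS.2 x hx).mono fun _ hg hT => hg (h hT)⟩

theorem iUnion_mem_idl {C : Set (ℕ → ℕ)} {S : ℕ → Set (ℕ → ℕ)} (hS : ∀ n, S n ∈ idl C) :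
    ⋃ n, S n ∈ idl C := by
  refine ⟨iUnion_subset fun n => (hS n).1, fun x hx => ?_⟩
  refine (forces_iInter.mpr fun n => (hS n).2 x hx).mono fun g hg => ?_
  simpa using hg

theorem class_not_mem_idl (x : ℕ → ℕ) :
    {y | rk x 0 = rk y 0} ∉ idl {y | rk x 0 = rk y 0} := by
  intro h
  obtain ⟨g, -, h1, h2⟩ := ((h.2 x rfl).and (forces_rk (rk_le_omega x 0))).exists
  exact h1 h2.symm

theorem measurableSet_idl {A : Set ((ℕ → ℕ) × (ℕ → ℕ))} (hA : MeasurableSet A) :
    MeasurableSet {x : ℕ → ℕ | {y | rk x 0 = rk y 0 ∧ (x, y) ∈ A} ∈ idl {y | rk x 0 = rk y 0}} := by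
  convert measurableSet_forces hA.compl using 1
  ext x
  constructor
  · intro h
    exact ((h.2 x rfl).and (forces_rk (rk_le_omega x 0))).mono
      fun g hg hA' => hg.1 ⟨hg.2.symm, hA'⟩
  · intro h
    refine ⟨fun y hy => hy.1, fun y hy => ?_⟩
    rw [← show rk x 0 = rk y 0 from hy]
    exact h.mono fun g hg hA' => hg hA'.2

end

end Pool.Agent.P.MP_488d72_lc
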