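import Mathlib
import Pool.Agent.P.MP_488d72_lc.Generic

/-! The tagged forcing with tags bounded by a countable ordinal. -/

set_option autoImplicit false

namespace Pool.Agent.P.MP_488d72_lc.C

open Ordinal Set MeasureTheory PiNat Filter

noncomputable section

section general
variable {L : Type 1} [TopologicalSpace L] [DiscreteTopology L] {g h : ℕ → L} {n m : ℕ}
  {S T : Set (ℕ → L)}

/-- The condition `(g, n)` forces `S`: comeagre many extensions lie in `S`. -/
def Frc (g : ℕ → L) (n : ℕ) (S : Set (ℕ → L)) : Prop :=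
  ∀ᶠ h in residual (ℕ → L), h ∈ cylinder g n → h ∈ S

omit [TopologicalSpace L] [DiscreteTopology L] in
theorem cyl_sub (H : h ∈ cylinder g n) (hnm : n ≤ m) :
    cylinder h m ⊆ cylinder g n := fun _ hk i hi => (hk i (hi.trans_le hnm)).trans (H i hi)

omit [DiscreteTopology L] in
theorem Frc.ext (hS : Frc g n S) (H : h ∈ cylinder g n) (hnm : n ≤ m) : Frc h m S :=
  Filter.Eventually.mono hS fun _ hk hk' => hk (cyl_sub H hnm hk')

omit [DiscreteTopology L] in
theorem frc_of_subset (h : cylinder g n ⊆ S) : Frc g n S :=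
  Filter.Eventually.of_forall h

theorem Frc.exists (hS : Frc g n S) : ∃ h ∈ cylinder g n, h ∈ S := by
  obtain ⟨h, h1, h2⟩ := (dense_of_mem_residual hS).inter_open_nonempty _
    (isOpen_cylinder _ g n) ⟨g, self_mem_cylinder _ _⟩
  exact ⟨h, h1, h2 h1⟩

omit [DiscreteTopology L] in
theorem Frc.and (hS : Frc g n S) (hT : Frc g n T) : Frc g n (S ∩ T) :=
  (Filter.Eventually.and hS hT).mono fun _ hk hk' => ⟨hk.1 hk', hk.2 hk'⟩

omit [DiscreteTopology L] in
theorem Frc.mono (hS : Frc g n S) (h : S ⊆ T) : Frc g n T :=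
  Filter.Eventually.mono hS fun _ hk hk' => h (hk hk')

omit [DiscreteTopology L] in
theorem frc_iInter {S : ℕ → Set (ℕ → L)} : Frc g n (⋂ i, S i) ↔ ∀ i, Frc g n (S i) := by
  refine ⟨fun h i => h.mono (iInter_subset _ i), fun h => ?_⟩
  exact (eventually_countable_forall.mpr h).mono fun k hk hk' => mem_iInter.mpr fun i => hk i hk'

theorem exists_cyl {U : Set (ℕ → L)} (hU : IsOpen U) (hh : h ∈ U) : ∃ m, cylinder h m ⊆ U := by
  obtain ⟨_, ⟨x, m, rfl⟩, h1, h2⟩ :=
    (isTopologicalBasis_cylinders (fun _ : ℕ => L)).exists_subset_of_mem_open hh hU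
  exact ⟨m, (mem_cylinder_iff_eq.mp h1).symm ▸ h2⟩

theorem frc_compl (hS : BaireMeasurableSet S) :
    Frc g n Sᶜ ↔ ∀ h ∈ cylinder g n, ∀ m, n ≤ m → ¬ Frc h m S := by
  constructor
  · intro H h hh m hm hF
    obtain ⟨k, -, h1, h2⟩ := ((H.ext hh hm).and hF).exists
    exact h1 h2
  · intro H
    obtain ⟨U, hU, hSU⟩ := hS.residualEq_isOpen
    have hSU' : ∀ᶠ k in residual (ℕ → L), k ∈ S ↔ k ∈ U := hSU.mem_iff
    refine hSU'.mono fun k hk hk' hkS => ?_
    obtain ⟨m, hm⟩ := exists_cyl hU (hk.mp hkS)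
    refine H k hk' (max n m) (le_max_left _ _) (hSU'.mono fun l hl hl' => hl.mpr ?_)
    exact hm (cylinder_anti k (le_max_right _ _) hl')

theorem generic_one (l : L) (a : ℕ) : ∀ᶠ g in residual (ℕ → L), ∃ b, a < b ∧ g b = l := by
  refine residual_of_dense_open ?_ ?_
  · have : {g : ℕ → L | ∃ b, a < b ∧ g b = l} =
        ⋃ b, ⋃ (_ : a < b), (fun g : ℕ → L => g b) ⁻¹' {l} := by
      ext g
      simp
    rw [this]
    exact isOpen_iUnion fun b => isOpen_iUnion fun _ =>
      (isOpen_discrete _).preimage (continuous_apply b)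
  · rw [dense_iff_inter_open]
    rintro U hU ⟨h, hh⟩
    obtain ⟨m, hm⟩ := exists_cyl hU hh
    refine ⟨Function.update h (max m (a + 1)) l,
      hm (cylinder_anti h (le_max_left _ _) (update_mem_cylinder _ _ _)), max m (a + 1),
      by omega, Function.update_self _ _ _⟩

omit [DiscreteTopology L] in
theorem frc_congr (H : (fun i : Fin m => g i) = fun i : Fin m => h i) (hS : Frc g m S) :
    Frc h m S := hS.ext (fun i hi => (congrFun H ⟨i, hi⟩).symm) le_rfl

omit [DiscreteTopology L] in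
theorem measurable_jump [Countable L] {Y : Type} [MeasurableSpace Y] {S : Y → Set (ℕ → L)}
    (hm : ∀ g n, Measurable fun y => Frc g n (S y)) (g : ℕ → L) (n : ℕ) :
    Measurable fun y => ∀ h ∈ cylinder g n, ∀ m, n ≤ m → ¬ Frc h m (S y) := by
  have : (fun y => ∀ h ∈ cylinder g n, ∀ m, n ≤ m → ¬ Frc h m (S y)) =
      fun y => ∀ m, ∀ c : Fin m → L,
        ∀ h ∈ cylinder g n, n ≤ m → (fun i : Fin m => h i) = c → ¬ Frc h m (S y) := by
    ext y
    exact ⟨fun H m c h hh hm _ => H h hh m hm, fun H h hh m hm => H m _ h hh hm rfl⟩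
  rw [this]
  refine Measurable.forall fun m => Measurable.forall fun c => ?_
  by_cases hex : ∃ h ∈ cylinder g n, n ≤ m ∧ (fun i : Fin m => h i) = c
  · obtain ⟨h₀, h1, h2, h3⟩ := hex
    have : (fun y => ∀ h ∈ cylinder g n, n ≤ m → (fun i : Fin m => h i) = c → ¬ Frc h m (S y)) =
        fun y => ¬ Frc h₀ m (S y) := by
      ext y
      exact ⟨fun H => H h₀ h1 h2 h3, fun H h _ _ hk hF => H (frc_congr (hk.trans h3.symm) hF)⟩
    rw [this]
    exact (hm h₀ m).not
  · have : (fun y => ∀ h ∈ cylinder g n, n ≤ m → (fun i : Fin m => h i) = c → ¬ Frc h m (S y)) =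
        fun _ => True := by
      ext y
      exact ⟨fun _ => trivial, fun _ h h1 h2 h3 => absurd ⟨h, h1, h2, h3⟩ hex⟩
    rw [this]
    exact measurable_const

/-- the countable chain condition -/
theorem ccc [Countable L] {ι : Type} {F : Set ι} {S : ι → Set (ℕ → L)}
    (h1 : ∀ i ∈ F, BaireMeasurableSet (S i)) (h2 : ∀ i ∈ F, ¬ Frc g n (S i)ᶜ)
    (h3 : F.Pairwise fun i j => Frc g n (S i ∩ S j)ᶜ) : F.Countable := by
  have : ∀ i : F, ∃ h ∈ cylinder g n, ∃ m, n ≤ m ∧ Frc h m (S i) := fun i => by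
    have := mt (frc_compl (h1 i i.2)).2 (h2 i i.2)
    push Not at this
    exact this
  choose h hh m hm hF using this
  let key : F → (m : ℕ) × (Fin m → L) := fun i => ⟨m i, fun k => h i k⟩
  refine countable_coe_iff.1 (Function.Injective.countable (f := key) fun i j e => ?_)
  by_contra hne
  obtain ⟨e1, e2⟩ := Sigma.ext_iff.1 e
  have hj := hF j
  have e3 : ∀ k < m i, h j k = h i k := fun k hk =>
    (congrArg (fun z : (m : ℕ) × (Fin m → L) => if hk : k < z.1 then z.2 ⟨k, hk⟩ else h i k) e).symm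
      |>.trans (by simp [key, hk]) |> Eq.trans (by simp only [key] at e1 ⊢; simp [← e1, hk])
  rw [← show m i = m j from e1] at hj
  obtain ⟨k, -, a, b, c⟩ := (((h3 i.2 j.2 fun e => hne (Subtype.ext e)).ext (hh i) (hm i)).and
    ((hF i).and (hj.ext (fun k hk => (e3 k hk).symm) le_rfl))).exists
  exact a ⟨b, c⟩

end general

/-- letters with tag at most `α` -/
abbrev Let (α : Ordinal.{0}) : Type 1 := {l : Letter // l.tag ≤ α}

theorem countable_Let {α : Ordinal.{0}} (h : α < ω₁) : Countable (Let α) := by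
  have := (countable_Iic h).to_subtype
  refine Function.Injective.countable (f := fun l : Let α => ((⟨l.1.tag, l.2⟩ : Iic α), l.1.par)) ?_
  rintro ⟨⟨a, b⟩, _⟩ ⟨⟨c, d⟩, _⟩ e
  simpa [Subtype.ext_iff] using e

/-- forget the bound -/
def up {α : Ordinal.{0}} (g : ℕ → Let α) : Om := fun n => (g n).1

variable {α α' η : Ordinal.{0}} {n : ℕ}

theorem up_cyl {g h : ℕ → Let α} (H : h ∈ cylinder g n) : up h ∈ cylinder (up g) n :=
  fun i hi => congrArg Subtype.val (H i hi)

theorem continuous_up : Continuous (up : (ℕ → Let α) → Om) :=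
  continuous_pi fun n => continuous_subtype_val.comp (continuous_apply n)

theorem retag_one (hη : η < ω₁) (ha : η ≤ α') {g h : ℕ → Let α} {g' : ℕ → Let α'}
    (H : Sim (η + 1) n (up g) (up g')) (hh : h ∈ cylinder g n) :
    ∃ h' ∈ cylinder g' n, Sim η (n + 1) (up h) (up h') := by
  classical
  let h' : ℕ → Let α' := Function.update g' n
    ⟨⟨min (up h n).tag η, if code (up h) n = 0 then n else (up h n).par⟩,
      (min_le_right _ _).trans ha⟩
  have hh' : h' ∈ cylinder g' n := update_mem_cylinder _ _ _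
  have hn : up h' n = ⟨min (up h n).tag η, if code (up h) n = 0 then n else (up h n).par⟩ :=
    congrArg Subtype.val (Function.update_self n _ g')
  refine ⟨h', hh', fun i hi => ?_⟩
  replace hh := up_cyl hh
  replace hh' := up_cyl hh'
  rcases (Nat.lt_succ_iff.mp hi).eq_or_lt with rfl | hi
  · refine ⟨?_, by rw [hn]; simp⟩
    rcases h0 : code (up h) i with _ | a
    · unfold code
      rw [hn]
      simp [h0]
    · obtain ⟨h1, h2, h3⟩ := code_eq_succ h0
      symm
      refine code_of (by rw [hn]; simp [h0, h1]) h2 (Or.inl ?_)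
      rw [hn, hh' a h2]
      have h4 := (H a h2).2
      rw [← hh a h2] at h4
      have h5 : min (up h i).tag η < min (up h a).tag (η + 1) := by
        refine lt_min ?_ ((min_le_right _ _).trans_lt (lt_add_one η))
        rcases h3 with h3 | h3
        · exact (min_le_left _ _).trans_lt h3
        · exact (min_le_right _ _).trans_lt (hη.trans_le h3)
      exact (h4 ▸ h5).trans_le (min_le_left _ _)
  · have := (H.mono (lt_add_one η).le) i hi
    rw [code_congr hh hi, code_congr hh' hi, hh i hi, hh' i hi]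
    exact this

theorem retag (hη : η < ω₁) (k : ℕ) (ha : η + k ≤ α') {g h : ℕ → Let α} {g' : ℕ → Let α'}
    (H : Sim (η + k) n (up g) (up g')) (hh : h ∈ cylinder g n) :
    ∃ h' ∈ cylinder g' n, Sim η (n + k) (up h) (up h') := by
  induction k generalizing n g g' with
  | zero =>
    refine ⟨g', self_mem_cylinder _ _, fun i hi => ?_⟩
    have := H i hi
    rw [code_congr (up_cyl hh) hi, up_cyl hh i hi]
    simpa using this
  | succ k ih =>
    rw [Nat.cast_succ, ← add_assoc] at H ha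
    have ha' := (lt_add_one _).le.trans ha
    obtain ⟨h₁, hh₁, H₁⟩ := retag_one (add_nat_lt hη k) ha' H hh
    obtain ⟨h₂, hh₂, H₂⟩ := ih ha' H₁ (self_mem_cylinder _ _)
    exact ⟨h₂, cyl_sub hh₁ (Nat.le_succ n) hh₂, by rwa [add_assoc, add_comm 1 k] at H₂⟩

/-- A property of conditions that only depends on tags below `η`. -/
def Inv (η : Ordinal.{0}) (Φ : (α : Ordinal.{0}) → (ℕ → Let α) → ℕ → Prop) : Prop :=
  ∀ α α', η ≤ α → η ≤ α' → ∀ n g g', Sim η n (up g) (up g') → Φ α g n → Φ α' g' n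

theorem Inv.mono {η' : Ordinal.{0}} {Φ : (α : Ordinal.{0}) → (ℕ → Let α) → ℕ → Prop}
    (h : Inv η Φ) (hη : η ≤ η') : Inv η' Φ :=
  fun α α' a a' n g g' H => h α α' (hη.trans a) (hη.trans a') n g g' (H.mono hη)

theorem exists_jump (hη : η < ω₁) :
    ∃ η' < ω₁, ∀ Φ : (α : Ordinal.{0}) → (ℕ → Let α) → ℕ → Prop, Inv η Φ →
      Inv η' fun α g n => ∀ h ∈ cylinder g n, ∀ m, n ≤ m → ¬ Φ α h m := by
  obtain ⟨η', hη', hk⟩ := exists_bound (fun k : ℕ => η + k) (add_nat_lt hη)
  refine ⟨η', hη', fun Φ hΦ α α' a a' n g g' H hg h' hh' m hm hF => ?_⟩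
  obtain ⟨k, rfl⟩ := Nat.exists_eq_add_of_le hm
  obtain ⟨h, hh, H'⟩ := retag hη k ((hk k).le.trans a) (H.symm.mono (hk k).le) hh'
  have b : η ≤ η' := by simpa using (hk 0).le
  exact hg h hh _ hm (hΦ _ _ (b.trans a') (b.trans a) _ _ _ H' hF)

variable {Y : Type}

/-- The section of `A` at `y`, pulled back to tagged sequences. -/
def sec (α : Ordinal.{0}) (A : Set (Y × (ℕ → ℕ))) (y : Y) : Set (ℕ → Let α) :=
  {g | (y, code (up g)) ∈ A}

variable [mY : MeasurableSpace Y]

theorem baire_sec {A : Set (Y × (ℕ → ℕ))} (hA : MeasurableSet A) (y : Y) :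
    BaireMeasurableSet (sec α A y) := by
  borelize (ℕ → Let α)
  exact MeasurableSet.baireMeasurableSet
    ((measurable_prodMk_left.comp (continuous_code.comp continuous_up).measurable) hA)

def Nice (A : Set (Y × (ℕ → ℕ))) : Prop :=
  MeasurableSet A ∧ (∃ η < ω₁, ∀ y, Inv η fun α g n => Frc g n (sec α A y)) ∧
    ∀ α < ω₁, ∀ g n, Measurable fun y => Frc g n (sec α A y)

theorem Nice.compl {A : Set (Y × (ℕ → ℕ))} (h : Nice A) : Nice Aᶜ := by
  obtain ⟨hA, ⟨η, hη, h1⟩, h2⟩ := h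
  obtain ⟨η', hη', hj⟩ := exists_jump hη
  have e : ∀ α y g n, Frc g n (sec α Aᶜ y) ↔
      ∀ h ∈ cylinder g n, ∀ m, n ≤ m → ¬ Frc h m (sec α A y) :=
    fun α y g n => frc_compl (baire_sec hA y)
  refine ⟨hA.compl, ⟨η', hη', fun y => ?_⟩, fun α hα g n => ?_⟩
  · simp only [e]
    exact hj _ (h1 y)
  · simp only [e]
    have := countable_Let hα
    exact measurable_jump (h2 α hα) g n

theorem Nice.iInter {A : ℕ → Set (Y × (ℕ → ℕ))} (h : ∀ i, Nice (A i)) : Nice (⋂ i, A i) := by
  choose hA h1 h2 using h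
  choose η hη h1 using h1
  obtain ⟨η', hη', hb⟩ := exists_bound η hη
  have e : ∀ α y g n, Frc g n (sec α (⋂ i, A i) y) ↔ ∀ i, Frc g n (sec α (A i) y) := by
    intro α y g n
    rw [← frc_iInter]
    congr! 1
    ext g
    simp [sec]
  refine ⟨MeasurableSet.iInter hA, ⟨η', hη', fun y => ?_⟩, fun α hα g n => ?_⟩
  · simp only [e]
    exact fun α α' a a' n g g' H hg i => (h1 i y).mono (hb i).le α α' a a' n g g' H (hg i)
  · simp only [e]
    exact Measurable.forall fun i => h2 i α hα g n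

theorem nice_fst {B : Set Y} (hB : MeasurableSet B) :
    Nice (Prod.fst ⁻¹' B : Set (Y × (ℕ → ℕ))) := by
  have e : ∀ α y g n, Frc g n (sec α (Prod.fst ⁻¹' B : Set (Y × (ℕ → ℕ))) y) ↔ y ∈ B := by
    intro α y g n
    constructor
    · intro H
      obtain ⟨h, -, hh⟩ := H.exists
      exact hh
    · intro H
      exact frc_of_subset fun _ _ => H
  refine ⟨measurable_fst hB, ⟨0, omega_pos 1, fun y => ?_⟩, fun α _ g n => ?_⟩
  · simp only [e]
    exact fun _ _ _ _ _ _ _ _ h => h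
  · simp only [e]
    exact measurableSet_setOfPred.mp hB

theorem nice_snd (i : ℕ) (s : Set ℕ) : Nice ({p | p.2 i ∈ s} : Set (Y × (ℕ → ℕ))) := by
  have e : ∀ α (y : Y) g n, Frc g n (sec α {p | p.2 i ∈ s} y) ↔
      ∀ h ∈ cylinder g n, ∀ m, n ≤ m → ¬ (i < m ∧ code (up h) i ∉ s) := by
    intro α y g n
    constructor
    · rintro H h hh m hm ⟨h1, h2⟩
      obtain ⟨k, hk, hk'⟩ := (H.ext hh hm).exists
      exact h2 (code_congr (up_cyl hk) h1 ▸ hk')
    · intro H
      refine frc_of_subset fun h hh => ?_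
      by_contra hcon
      exact H h hh (max n (i + 1)) (le_max_left _ _) ⟨by omega, hcon⟩
  obtain ⟨η', hη', hj⟩ := exists_jump (omega_pos 1)
  refine ⟨((measurable_pi_apply i).comp measurable_snd) (MeasurableSet.of_discrete (s := s)),
    ⟨η', hη', fun y => ?_⟩, fun α _ g n => ?_⟩
  · simp only [e]
    exact hj (fun α h m => i < m ∧ code (up h) i ∉ s)
      fun _ _ _ _ n g g' H hg => ⟨hg.1, (H i hg.1).1 ▸ hg.2⟩
  · simp only [e]
    exact measurable_const

theorem nice_of_measurableSet {A : Set (Y × (ℕ → ℕ))} (hA : MeasurableSet A) : Nice A := by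
  let M : MeasurableSpace (Y × (ℕ → ℕ)) :=
    { MeasurableSet' := Nice
      measurableSet_empty := by simpa using nice_fst (Y := Y) MeasurableSet.empty
      measurableSet_compl := fun _ h => h.compl
      measurableSet_iUnion := fun f hf => by
        simpa [compl_iInter] using (Nice.iInter fun i => (hf i).compl).compl }
  have : (Prod.instMeasurableSpace : MeasurableSpace (Y × (ℕ → ℕ))) ≤ M := by
    refine sup_le ?_ ?_
    · rintro _ ⟨B, hB, rfl⟩
      exact nice_fst hB
    · rw [MeasurableSpace.pi, MeasurableSpace.comap_iSup, iSup_le_iff]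
      rintro i _ ⟨_, ⟨s, -, rfl⟩, rfl⟩
      exact nice_snd i s
  exact this A hA

/-- The condition that gives the root the tag `α`. -/
def rt (α : Ordinal.{0}) : ℕ → Let α := fun _ => ⟨⟨α, 0⟩, le_rfl⟩

theorem frc_rk (hα : α < ω₁) : Frc (rt α) 1 {g | rk (code (up g)) 0 = α} := by
  have := countable_Let hα
  have hg : ∀ᶠ g in residual (ℕ → Let α), ∀ a, ∀ l, ∃ b, a < b ∧ g b = l :=
    eventually_countable_forall.mpr fun a => eventually_countable_forall.mpr fun l =>
      generic_one l a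
  refine hg.mono fun g hg hc => ?_
  have h0 : (up g 0).tag = α := by rw [up_cyl hc 0 one_pos]; rfl
  have h1 : rk (code (up g)) 0 ≤ α := rk_le_of_Le (Le_code _ hα 0 h0.le)
  refine le_antisymm h1 (h0.ge.trans ?_)
  refine tag_le_of_Le (α := α) (fun a β hβ => ?_) _ 0 h0.le ((rk_le_iff (h1.trans_lt hα)).mp le_rfl)
  obtain ⟨b, h2, h3⟩ := hg a ⟨⟨β, a⟩, hβ.le⟩
  exact ⟨b, h2, congrArg Subtype.val h3⟩

/-- forcing below the root with tag `τ y` is measurable when the sublevel sets of `τ` are -/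
theorem measurableSet_frc {τ : Y → Ordinal.{0}}
    (hτ : ∀ α < ω₁, MeasurableSet {y | τ y ≤ α}) {A : Set (Y × (ℕ → ℕ))} (hA : MeasurableSet A) :
    MeasurableSet {y | Frc (rt (τ y)) 1 (sec (τ y) A y)} := by
  obtain ⟨-, ⟨η, hη, h1⟩, h2⟩ := nice_of_measurableSet hA
  have hlt : ∀ α < ω₁, MeasurableSet {y | τ y < α} := fun α h => by
    have : {y | τ y < α} = ⋃ β ∈ Iio α, {y | τ y ≤ β} := by
      ext x
      simp only [mem_iUnion, exists_prop, mem_ofPred_eq, mem_Iio]
      exact ⟨fun hx => ⟨_, hx, le_rfl⟩, fun ⟨β, hβ, hx⟩ => hx.trans_lt hβ⟩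
    rw [this]
    exact MeasurableSet.biUnion (countable_Iio h) fun β hβ => hτ β (lt_trans hβ h)
  have : {y | Frc (rt (τ y)) 1 (sec (τ y) A y)} =
      (⋃ α ∈ Iio η, ({y | τ y ≤ α} \ {y | τ y < α}) ∩ {y | Frc (rt α) 1 (sec α A y)}) ∪
        ({y | τ y < η}ᶜ ∩ {y | Frc (rt η) 1 (sec η A y)}) := by
    ext x
    simp only [mem_ofPred_eq, mem_union, mem_iUnion, mem_inter_iff, mem_Iio, exists_prop,
      mem_compl_iff, not_lt, Set.mem_sdiff]
    constructor
    · intro H
      rcases lt_or_ge (τ x) η with h | h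
      · exact Or.inl ⟨_, h, ⟨le_rfl, le_rfl⟩, H⟩
      · exact Or.inr ⟨h, h1 x _ _ h le_rfl 1 (rt _) (rt _) (sim_root h le_rfl) H⟩
    · rintro (⟨α, -, ⟨a, b⟩, H⟩ | ⟨h, H⟩)
      · obtain rfl := le_antisymm a b
        exact H
      · exact h1 x _ _ le_rfl h 1 (rt _) (rt _) (sim_root le_rfl h) H
  rw [this]
  exact (MeasurableSet.biUnion (countable_Iio hη) fun α hα =>
    ((hτ α (lt_trans hα hη)).diff (hlt α (lt_trans hα hη))).inter
      (h2 _ (lt_trans hα hη) _ _).setOf).union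
      ((hlt η hη).compl.inter (h2 _ hη _ _).setOf)

end

end Pool.Agent.P.MP_488d72_lc.C
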