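import Mathlib
import Pool.Agent.P.MP_488d72_lc.Rank

/-! Boundedness for analytic families of well-founded forests, uniformly in a parameter. -/

set_option autoImplicit false

namespace Pool.Agent.P.MP_488d72_lc.C

open Ordinal Set MeasureTheory Filter Topology

noncomputable section

variable {x y : ℕ → ℕ} {a b : ℕ} {β : Ordinal.{0}}

theorem rk_le_of_rel {Z : ℕ → ℕ → Prop}
    (h : ∀ a b a', Z a b → x a' = a + 1 → ∃ b', y b' = b + 1 ∧ Z a' b') (hab : Z a b) :
    rk x a ≤ rk y b := by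
  have key : ∀ α : Ordinal.{0}, ∀ a b, Z a b → Le y α b → Le x α a := by
    intro α
    induction α using WellFoundedLT.induction with
    | ind α ih =>
      intro a b hab hy
      rw [le_iff] at hy ⊢
      intro a' ha'
      obtain ⟨b', hb', hZ⟩ := h a b a' hab ha'
      obtain ⟨β, hβ, hle⟩ := hy b' hb'
      exact ⟨β, hβ, ih β hβ a' b' hZ hle⟩
  rcases (rk_le_omega y b).eq_or_lt with h1 | h1
  · rw [h1]; exact rk_le_omega x a
  · exact rk_le_of_Le (key _ a b hab ((rk_le_iff h1).mp le_rfl))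

theorem rk_child_lt (h : rk x a < ω₁) (hb : x b = a + 1) : rk x b < rk x a :=
  (rk_le_iff' h).1 le_rfl b hb

theorem rk_child_le (hb : x b = a + 1) : rk x b ≤ rk x a := by
  rcases (rk_le_omega x a).eq_or_lt with h | h
  exacts [h ▸ rk_le_omega x b, (rk_child_lt h hb).le]

theorem exists_child (h : β < rk x a) : ∃ b, x b = a + 1 ∧ β ≤ rk x b := by
  by_contra hc
  push Not at hc
  exact h.not_ge ((rk_le_iff' (h.trans_le (rk_le_omega x a))).2 hc)

theorem exists_child_top (h : rk x a = ω₁) : ∃ b, x b = a + 1 ∧ rk x b = ω₁ := by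
  by_contra hc
  push Not at hc
  obtain ⟨η, hη, hb⟩ := exists_bound (fun b : {b // x b = a + 1} => rk x b.1)
    fun b => (rk_le_omega x b).lt_of_ne (hc b.1 b.2)
  exact hη.not_ge (h ▸ (rk_le_iff' hη).2 fun b hb' => hb ⟨b, hb'⟩)

theorem rk_top {D : ℕ → Prop} (h : ∀ a, D a → ∃ b, x b = a + 1 ∧ D b) (ha : D a) : rk x a = ω₁ := by
  have key : ∀ α : Ordinal.{0}, ∀ a, D a → ¬ Le x α a := by
    intro α
    induction α using WellFoundedLT.induction with
    | ind α ih =>
      intro a ha H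
      obtain ⟨b, hb, hD⟩ := h a ha
      obtain ⟨β, hβ, H'⟩ := le_iff.1 H b hb
      exact ih β hβ b hD H'
  exact (rk_le_omega x a).eq_or_lt.resolve_right fun h1 => key _ a ha ((rk_le_iff h1).1 le_rfl)

theorem rel_rk (a b a' : ℕ) (hab : rk x a ≤ rk y b) (ha' : x a' = a + 1) :
    ∃ b', y b' = b + 1 ∧ rk x a' ≤ rk y b' := by
  rcases (rk_le_omega x a).eq_or_lt with h | h
  · obtain ⟨b', h1, h2⟩ := exists_child_top ((rk_le_omega y b).antisymm (h ▸ hab))
    exact ⟨b', h1, h2 ▸ rk_le_omega x a'⟩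
  · exact exists_child ((rk_child_lt h ha').trans_le hab)

/-- code of the root `r` followed by the first `k` values of `c` -/
def pre (r : ℕ) (c : ℕ → ℕ) : ℕ → ℕ
  | 0 => 2 * r
  | k + 1 => 2 * Nat.pair (pre r c k) (c k) + 1

theorem pre_inj {r r' : ℕ} {c c' : ℕ → ℕ} : ∀ {k k' : ℕ}, pre r c k = pre r' c' k' →
    r = r' ∧ k = k' ∧ ∀ i < k, c i = c' i
  | 0, 0, h => ⟨by simpa [pre] using h, rfl, fun _ hi => absurd hi (Nat.not_lt_zero _)⟩
  | 0, _ + 1, h => by simp only [pre] at h; omega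
  | _ + 1, 0, h => by simp only [pre] at h; omega
  | k + 1, k' + 1, h => by
    obtain ⟨h1, h2⟩ := Nat.pair_eq_pair.1 (show Nat.pair (pre r c k) (c k) =
      Nat.pair (pre r' c' k') (c' k') by simp only [pre] at h; omega)
    obtain ⟨e, rfl, h3⟩ := pre_inj h1
    refine ⟨e, rfl, fun i hi => ?_⟩
    rcases (Nat.lt_succ_iff.1 hi).eq_or_lt with rfl | hi
    exacts [h2, h3 i hi]

theorem pre_congr {r : ℕ} {c c' : ℕ → ℕ} : ∀ {k : ℕ}, (∀ i < k, c i = c' i) →
    pre r c k = pre r c' k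
  | 0, _ => rfl
  | k + 1, h => by
    rw [pre, pre, pre_congr fun i hi => h i (Nat.lt_succ_of_lt hi), h k (Nat.lt_succ_self k)]

def par (b : ℕ) : ℕ := (Nat.unpair (b / 2)).1

theorem par_pre (r : ℕ) (c : ℕ → ℕ) (k : ℕ) : par (pre r c (k + 1)) = pre r c k := by
  rw [par, pre, show ∀ n, (2 * n + 1) / 2 = n by omega, Nat.unpair_pair]

open Classical in
/-- the forest with code `e`, read at the parameter `u` -/
def tree (e u : ℕ → ℕ) : ℕ → ℕ := fun b =>
  if ∃ k, e (Nat.pair b (pre 0 u k)) = 1 then par b + 1 else 0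

theorem measurable_tree {X : Type} [MeasurableSpace X] {e u : X → ℕ → ℕ} (he : Measurable e)
    (hu : Measurable u) : Measurable fun x => tree (e x) (u x) := by
  have h1 : ∀ k, Measurable fun x => pre 0 (u x) k := fun k => by
    induction k with
    | zero => exact measurable_const
    | succ k ih =>
      exact (measurable_of_countable fun p : ℕ × ℕ => 2 * Nat.pair p.1 p.2 + 1).comp
        (ih.prodMk ((measurable_pi_apply k).comp hu))
  have h2 : Measurable fun p : (ℕ → ℕ) × ℕ => p.1 p.2 :=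
    measurable_from_prod_countable_left fun n => measurable_pi_apply n
  refine measurable_pi_lambda _ fun b => Measurable.ite (Measurable.setOf (Measurable.exists fun k =>
    Measurable.eq_const (h2.comp (he.prodMk ((measurable_of_countable (Nat.pair b)).comp (h1 k)))) 1))
    measurable_const measurable_const

theorem bound (A : ℕ → Set ((ℕ → ℕ) × (ℕ → ℕ))) (hA : ∀ p, AnalyticSet (A p)) :
    ∃ e, ∀ u p, (∀ t, (u, t) ∈ A p → rk t 0 ≤ rk (tree e u) (2 * p)) ∧
      ((∀ t, (u, t) ∈ A p → rk t 0 < ω₁) → rk (tree e u) (2 * p) < ω₁) := by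
  classical
  have : ∀ p, ∃ (D : Prop) (F : (ℕ → ℕ) → (ℕ → ℕ) × (ℕ → ℕ)), Continuous F ∧
      ∀ q, q ∈ A p ↔ D ∧ ∃ w, F w = q := fun p => by
    have := hA p
    rw [AnalyticSet] at this
    rcases this with h | ⟨F, hF, h⟩
    · exact ⟨False, fun _ => default, continuous_const, by simp [h]⟩
    · exact ⟨True, F, hF, by simp [← h]⟩
  choose D F hF hD using this
  let cc : (ℕ → ℕ) → (ℕ → ℕ) → ℕ → ℕ := fun w s i => Nat.pair (w i) (s (i + 1))
  let al : ℕ → (ℕ → ℕ) → (ℕ → ℕ) → ℕ → Prop := fun p w s k =>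
    D p ∧ s 0 = 0 ∧ ∀ i < k, (F p w).2 (s (i + 1)) = s i + 1
  let e : ℕ → ℕ := fun m => if ∃ p w s k, al p w s (k + 1) ∧
    m = Nat.pair (pre p (cc w s) (k + 1)) (pre 0 (F p w).1 (k + 1)) then 1 else 0
  refine ⟨e, fun u p => ⟨fun t ht => ?_, fun H => ?_⟩⟩
  · obtain ⟨hp, w, hw⟩ := (hD p _).1 ht
    obtain ⟨rfl, rfl⟩ : (F p w).1 = u ∧ (F p w).2 = t := Prod.ext_iff.1 hw
    refine rk_le_of_rel (Z := fun a b => ∃ s k, al p w s k ∧ s k = a ∧ b = pre p (cc w s) k) ?_
      ⟨fun _ => 0, 0, ⟨hp, rfl, fun _ h => absurd h (Nat.not_lt_zero _)⟩, rfl, rfl⟩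
    rintro _ _ a' ⟨s, k, ⟨-, h0, h1⟩, rfl, rfl⟩ ha'
    have k1 : ∀ i ≤ k, Function.update s (k + 1) a' i = s i := fun i hi =>
      Function.update_of_ne (by omega) _ _
    have k2 : al p w (Function.update s (k + 1) a') (k + 1) := by
      refine ⟨hp, (k1 0 k.zero_le).trans h0, fun i hi => ?_⟩
      rw [k1 i (by omega)]
      rcases (Nat.lt_succ_iff.1 hi).eq_or_lt with rfl | hi
      · rwa [Function.update_self]
      · rw [k1 _ hi, h1 i hi]
    refine ⟨_, ?_, _, k + 1, k2, Function.update_self _ _ _, rfl⟩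
    rw [tree, if_pos ⟨k + 1, if_pos ⟨p, w, _, k, k2, rfl⟩⟩, par_pre]
    exact congrArg (· + 1) (pre_congr fun i hi => congrArg (Nat.pair (w i)) (k1 _ hi))
  refine (rk_le_omega _ _).lt_of_ne fun htop => ?_
  choose! nx h1 h2 using fun a => exists_child_top (x := tree e u) (a := a)
  let b : ℕ → ℕ := fun k => nx^[k] (2 * p)
  have hb : ∀ k, rk (tree e u) (b k) = ω₁ := fun k => by
    induction k with
    | zero => exact htop
    | succ k ih => exact (congrArg _ (Function.iterate_succ_apply' nx k _)).trans (h2 _ ih)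
  have : ∀ k, ∃ p w s j, al p w s (j + 1) ∧ b (k + 1) = pre p (cc w s) (j + 1) ∧
      b k = pre p (cc w s) j ∧ ∀ i < j + 1, (F p w).1 i = u i := fun k => by
    have h3 : tree e u (b (k + 1)) = b k + 1 :=
      (congrArg _ (Function.iterate_succ_apply' nx k _)).trans (h1 _ (hb k))
    rw [tree] at h3
    split_ifs at h3 with h4
    obtain ⟨k', h4⟩ := h4
    obtain ⟨p, w, s, j, h5, h6⟩ := of_not_not fun h => zero_ne_one ((if_neg h).symm.trans h4)
    obtain ⟨h7, h8⟩ := Nat.pair_eq_pair.1 h6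
    refine ⟨p, w, s, j, h5, h7, ?_, (pre_inj h8.symm).2.2⟩
    rw [h7, par_pre] at h3
    omega
  choose q w s j h3 h4 h5 h6 using this
  have h7 : ∀ k, q k = p ∧ j k = k := fun k => by
    induction k with
    | zero =>
      have := pre_inj ((h5 0).symm.trans (show b 0 = pre p (fun _ => 0) 0 from rfl))
      exact ⟨this.1, this.2.1⟩
    | succ k ih =>
      have := pre_inj ((h5 (k + 1)).symm.trans (h4 k))
      exact ⟨this.1.trans ih.1, by omega⟩
  have h8 : ∀ i k, i ≤ k → cc (w k) (s k) i = cc (w i) (s i) i := fun i k hk => by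
    induction hk with
    | refl => rfl
    | @step k hk ih =>
      exact ((pre_inj ((h5 (k + 1)).symm.trans (h4 k))).2.2 i
        (by rw [(h7 _).2]; exact Nat.lt_succ_of_le hk)).trans ih
  let W : ℕ → ℕ := fun i => w i i
  let S : ℕ → ℕ := fun i => s i i
  have h9 : ∀ i k, i ≤ k → s k i = S i := fun i k hk => by
    rcases i with _ | i
    · exact (h3 k).2.1.trans (h3 0).2.1.symm
    · exact (Nat.pair_eq_pair.1 ((h8 i k (by omega)).trans (h8 i (i + 1) (by omega)).symm)).2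
  have lim : ∀ φ : (ℕ → ℕ) × (ℕ → ℕ) → ℕ, Continuous φ → ∀ c i, (∀ k, i ≤ k → φ (F p (w k)) = c) →
      φ (F p W) = c := fun φ hφ c i h => by
    have hw : Tendsto w atTop (𝓝 W) := tendsto_pi_nhds.2 fun i => tendsto_const_nhds.congr'
      ((eventually_ge_atTop i).mono fun k hk => (Nat.pair_eq_pair.1 (h8 i k hk)).1.symm)
    exact tendsto_nhds_unique (((hφ.comp (hF p)).tendsto W).comp hw)
      (tendsto_const_nhds.congr' ((eventually_ge_atTop i).mono fun k hk => (h k hk).symm))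
  refine (H (F p W).2 ((hD p _).2 ⟨(h7 0).1 ▸ (h3 0).1, W, Prod.ext (funext fun i => ?_) rfl⟩)).ne
    (rk_top (D := fun n => ∃ i, S i = n) ?_ ⟨0, (h3 0).2.1⟩)
  · exact lim (fun z => z.1 i) (by fun_prop) _ i fun k hk =>
      (h7 k).1 ▸ h6 k i (by rw [(h7 k).2]; omega)
  · rintro _ ⟨i, rfl⟩
    refine ⟨S (i + 1), lim (fun z => z.2 (S (i + 1))) (by fun_prop) _ (i + 1) fun k hk => ?_, _, rfl⟩
    have := (h3 k).2.2 i (by rw [(h7 k).2]; omega)
    rwa [(h7 k).1, h9 _ k hk, h9 _ k (by omega)] at this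

end

end Pool.Agent.P.MP_488d72_lc.C
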