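import Mathlib
import Pool.Agent.P.MP_488d72_lc.CTree

/-! A Scott analysis (after Hjorth) of continuous actions of Polish groups. -/

set_option autoImplicit false

universe u v

namespace Pool.Agent.P.MP_488d72_lc.C

open Ordinal Set MeasureTheory Filter Topology

noncomputable section

/-- the data of the back and forth game -/
structure Gm (Y : Type v) where
  sub : ℕ → ℕ → Prop
  base : Y → ℕ → Y → ℕ → Prop
  sub_refl : ∀ i, sub i i
  sub_trans : ∀ {i j k}, sub i j → sub j k → sub i k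
  base_trans : ∀ {x i y j z k}, base x i y j → base y j z k → base x i z k

namespace Gm
variable {Y : Type v} (M : Gm Y)

/-- one round of the game -/
def St (c : ℕ → ℕ → Prop) (i j : ℕ) : Prop := ∀ i', M.sub i' i → ∃ j', M.sub j' j ∧ c j' i'

def HL (α : Ordinal.{0}) : Y → ℕ → Y → ℕ → Prop := fun x i y j =>
  M.base x i y j ∧ ∀ β : Iio α, ∀ i', M.sub i' i → ∃ j', M.sub j' j ∧ HL β.1 y j' x i'
termination_by α
decreasing_by exact β.2

variable {M} {α β δ : Ordinal.{0}} {x y z : Y} {i j k : ℕ}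

theorem St.mono {c d : ℕ → ℕ → Prop} (h : M.St c i j) (e : ∀ i j, c i j → d i j) : M.St d i j :=
  fun i' hi => (h i' hi).imp fun _ h => ⟨h.1, e _ _ h.2⟩

theorem HL_iff : M.HL α x i y j ↔
    M.base x i y j ∧ ∀ β < α, M.St (fun j i => M.HL β y j x i) i j := by
  rw [HL]
  simp [St]

theorem HL.mono (h : M.HL α x i y j) (e : β ≤ α) : M.HL β x i y j :=
  HL_iff.2 ⟨(HL_iff.1 h).1, fun γ hγ => (HL_iff.1 h).2 γ (hγ.trans_le e)⟩

theorem HL.pred (h : M.HL (α + 1) x i y j) : M.HL α x i y j := h.mono (lt_add_one α).le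

theorem HL.step (h : M.HL (α + 1) x i y j) : M.St (fun j i => M.HL α y j x i) i j :=
  (HL_iff.1 h).2 α (lt_add_one α)

theorem HL.succ (h : M.base x i y j) (h' : M.St (fun j i => M.HL α y j x i) i j) :
    M.HL (α + 1) x i y j :=
  HL_iff.2 ⟨h, fun _ hβ => h'.mono fun _ _ e => e.mono (Order.lt_add_one_iff.1 hβ)⟩

theorem HL.trans (h : M.HL α x i y j) (h' : M.HL α y j z k) : M.HL α x i z k := by
  induction α using WellFoundedLT.induction generalizing x y z i j k with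
  | ind α ih =>
    rw [HL_iff] at h h' ⊢
    refine ⟨M.base_trans h.1 h'.1, fun β hβ i' hi => ?_⟩
    obtain ⟨j', hj, e⟩ := h.2 β hβ i' hi
    obtain ⟨k', hk, e'⟩ := h'.2 β hβ j' hj
    exact ⟨k', hk, ih β hβ e' e⟩

theorem forth (hs : ∀ i j, M.HL δ x i x j → M.HL (δ + 1 + 1) x i x j)
    (H : ∀ j, ∃ i, M.HL (δ + 1 + 1) x i y j) (h : M.HL (δ + 1) x i y j) :
    M.St (fun j i => M.HL (δ + 1) y j x i) i j := fun i' hi => by
  obtain ⟨j2, h1, h2⟩ := h.step i' hi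
  obtain ⟨w, hw⟩ := H j2
  obtain ⟨j1, h3, h4⟩ := hw.step w (M.sub_refl w)
  exact ⟨j1, M.sub_trans h3 h1, h4.trans (hs _ _ (hw.pred.pred.trans h2)).pred⟩

theorem back (hs : ∀ i j, M.HL δ x i x j → M.HL (δ + 1 + 1) x i x j)
    (H : ∀ j, ∃ i, M.HL (δ + 1 + 1) x i y j) (h : M.HL (δ + 1) y j x i) :
    M.St (fun i j => M.HL (δ + 1) x i y j) j i := fun j1 hj => by
  obtain ⟨w, hw⟩ := H j1
  obtain ⟨j2, h3, h4⟩ := hw.step w (M.sub_refl w)
  obtain ⟨i1, h1, h2⟩ := h.step j2 (M.sub_trans h3 hj)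
  exact ⟨i1, h1, ((hs _ _ (h2.trans h4.pred)).trans hw).pred⟩

variable {t : ℕ → ℕ} {n : ℕ}

/-- certificates that the game at `x` can be played along the forest `t` -/
def Cert1 (M : Gm Y) (x : Y) (t : ℕ → ℕ) (c : ℕ × ℕ × ℕ → Bool) : Prop :=
  ∀ n i j, c (n, i, j) = true → M.base x i x j ∧
    ∀ m, t m = n + 1 → M.St (fun j i => c (m, j, i) = true) i j

theorem Cert1.hl {c : ℕ × ℕ × ℕ → Bool} (h : M.Cert1 x t c) (hc : c (n, i, j) = true)
    (hα : α ≤ rk t n) : M.HL α x i x j := by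
  induction α using WellFoundedLT.induction generalizing n i j with
  | ind α ih =>
    refine HL_iff.2 ⟨(h _ _ _ hc).1, fun β hβ => ?_⟩
    obtain ⟨m, h1, h2⟩ := exists_child (hβ.trans_le hα)
    exact ((h _ _ _ hc).2 m h1).mono fun _ _ e => ih β hβ e h2

theorem exists_cert1 (h0 : rk t 0 < ω₁) (h : M.HL (rk t 0) x i x j) :
    ∃ c, M.Cert1 x t c ∧ c (0, i, j) = true := by
  classical
  refine ⟨fun p => decide (rk t p.1 < ω₁ ∧ M.HL (rk t p.1) x p.2.1 x p.2.2), fun n i j hc => ?_,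
    decide_eq_true ⟨h0, h⟩⟩
  obtain ⟨h1, h2⟩ := of_decide_eq_true hc
  refine ⟨(HL_iff.1 h2).1, fun m hm => ?_⟩
  have := rk_child_lt h1 hm
  exact ((HL_iff.1 h2).2 _ this).mono fun _ _ e => decide_eq_true ⟨this.trans h1, e⟩

/-- upper bounds for the game between `x` and `y` along the part `a` of the forest `t` -/
def Cert2 (M : Gm Y) (x y : Y) (t : ℕ → ℕ) (a : ℕ → Prop) (c d : ℕ × ℕ × ℕ → Bool) : Prop :=
  ∀ n, a n → ∀ i j, M.base x i y j →
    (∀ m, t m = n + 1 → M.St (fun j i => d (m, j, i) = true) i j) → c (n, i, j) = true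

/-- the orbit test computed from the upper bound `d` -/
def Test (M : Gm Y) (x y : Y) (a : ℕ → Prop) (d : ℕ × ℕ × ℕ → Bool) : Prop :=
  ∀ j, ∃ i, M.base x i y j ∧ M.St (fun j i => M.base y j x i ∧ M.St (fun i j => M.base x i y j ∧
    ∀ n, a n → M.St (fun j i => d (n, j, i) = true) i j) j i) i j

theorem test_of_rel {R : Y → ℕ → Y → ℕ → Prop} {a : ℕ → Prop} {c d : ℕ × ℕ × ℕ → Bool}
    (hR : ∀ x i y j, R x i y j → M.base x i y j ∧ M.St (fun j i => R y j x i) i j)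
    (ha : ∀ n, a n ↔ rk t n < ω₁) (h1 : M.Cert2 x y t a c d) (h2 : M.Cert2 y x t a d c)
    (h : ∀ j, ∃ i, R x i y j) : M.Test x y a d := by
  have key : ∀ α n, rk t n = α → a n → (∀ i j, R x i y j → c (n, i, j) = true) ∧
      ∀ i j, R y i x j → d (n, i, j) = true := fun α => by
    induction α using WellFoundedLT.induction with
    | ind α ih =>
      rintro n rfl hn
      have := fun m hm => rk_child_lt (b := m) ((ha n).1 hn) hm
      have k := fun m hm => ih _ (this m hm) m rfl ((ha m).2 ((this m hm).trans ((ha n).1 hn)))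
      exact ⟨fun i j e => h1 n hn i j (hR _ _ _ _ e).1 fun m hm => (hR _ _ _ _ e).2.mono (k m hm).2,
        fun i j e => h2 n hn i j (hR _ _ _ _ e).1 fun m hm => (hR _ _ _ _ e).2.mono (k m hm).1⟩
  refine fun j => (h j).imp fun i e => ⟨(hR _ _ _ _ e).1, (hR _ _ _ _ e).2.mono fun j i e =>
    ⟨(hR _ _ _ _ e).1, (hR _ _ _ _ e).2.mono fun i j e => ⟨(hR _ _ _ _ e).1, fun n hn =>
      (hR _ _ _ _ e).2.mono (key _ n rfl hn).2⟩⟩⟩

open Classical in
/-- the exact certificate -/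
def exact (M : Gm Y) (x y : Y) (t : ℕ → ℕ) : ℕ × ℕ × ℕ → Bool :=
  fun p => decide (M.HL (rk t p.1) x p.2.1 y p.2.2)

open Classical in
theorem cert2_exact (a : ℕ → Prop) : M.Cert2 x y t a (M.exact x y t) (M.exact y x t) :=
  fun n _ i j h1 h2 => decide_eq_true (HL_iff.2 ⟨h1, fun β hβ => by
    obtain ⟨m, h3, h4⟩ := exists_child hβ
    exact (h2 m h3).mono fun _ _ e => HL.mono (of_decide_eq_true e) h4⟩)

open Classical in
theorem hl_of_test {a : ℕ → Prop} (hδ : ∀ β < δ, ∃ n, a n ∧ β ≤ rk t n)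
    (h : M.Test x y a (M.exact y x t)) (j : ℕ) : ∃ i, M.HL (δ + 1 + 1) x i y j :=
  (h j).imp fun _ e => HL.succ e.1 (e.2.mono fun _ _ e => HL.succ e.1 (e.2.mono fun _ _ e =>
    HL_iff.2 ⟨e.1, fun β hβ => by
      obtain ⟨n, h1, h2⟩ := hδ β hβ
      exact (e.2 n h1).mono fun _ _ e => HL.mono (of_decide_eq_true e) h2⟩))

end Gm

/-- `U` enumerates a basis of nonempty open sets -/
def Bas {X : Type u} [TopologicalSpace X] (U : ℕ → Set X) : Prop :=
  (∀ i, IsOpen (U i) ∧ (U i).Nonempty) ∧ ∀ W, IsOpen W → ∀ x ∈ W, ∃ i, x ∈ U i ∧ U i ⊆ W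

theorem exists_bas (X : Type u) [TopologicalSpace X] [SecondCountableTopology X] [Nonempty X] :
    ∃ U : ℕ → Set X, Bas U := by
  have hb := TopologicalSpace.isBasis_countableBasis X
  obtain ⟨U, hU⟩ := (TopologicalSpace.countable_countableBasis X).exists_eq_range
    ((hb.exists_subset_of_mem_open (mem_univ (Classical.arbitrary X)) isOpen_univ).imp fun _ h => h.1)
  have : ∀ i, U i ∈ TopologicalSpace.countableBasis X := fun i => hU ▸ mem_range_self i
  refine ⟨U, fun i => ⟨hb.isOpen (this i),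
    TopologicalSpace.nonempty_of_mem_countableBasis (this i)⟩, fun W hW x hx => ?_⟩
  obtain ⟨_, h1, h2⟩ := hb.exists_subset_of_mem_open hx hW
  obtain ⟨i, rfl⟩ := hU ▸ h1
  exact ⟨i, h2⟩

section action
variable {G : Type u} {Y : Type v} [Group G] [MulAction G Y]

/-- the game of an action -/
def game (U : ℕ → Set G) (O : ℕ → Set Y) : Gm Y where
  sub i j := U i ⊆ U j
  base x i y j := ∀ k, (∃ u ∈ U i, u • x ∈ O k) → ∃ v ∈ U j, v • y ∈ O k
  sub_refl _ := Subset.rfl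
  sub_trans := Subset.trans
  base_trans h h' k e := h' k (h k e)

variable [TopologicalSpace G] [IsTopologicalGroup G] {U : ℕ → Set G} {O : ℕ → Set Y}

/-- translates -/
def Tr (U : ℕ → Set G) (x : Y) (i : ℕ) (y : Y) (j : ℕ) : Prop :=
  ∃ g : G, g • x = y ∧ ∀ u ∈ U i, u * g⁻¹ ∈ U j

theorem exists_tr (hU : Bas U) {x y : Y} {g : G} (h : g • x = y) (j : ℕ) :
    ∃ i, Tr U x i y j ∧ ∀ u ∈ U i, u * g⁻¹ ∈ U j := by
  obtain ⟨v, hv⟩ := (hU.1 j).2
  obtain ⟨i, -, hi⟩ := hU.2 _ ((hU.1 j).1.preimage (continuous_mul_const g⁻¹)) (v * g)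
    (by simpa using hv)
  exact ⟨i, ⟨g, h, hi⟩, hi⟩

theorem tr_step (hU : Bas U) (x : Y) (i : ℕ) (y : Y) (j : ℕ) (h : Tr U x i y j) :
    (game U O).base x i y j ∧ (game U O).St (fun j i => Tr U y j x i) i j := by
  obtain ⟨g, rfl, h⟩ := h
  refine ⟨fun k ⟨u, h1, h2⟩ => ⟨_, h u h1, by simpa [mul_smul] using h2⟩, fun i' hi => ?_⟩
  obtain ⟨j', h1, h2⟩ := exists_tr hU (inv_smul_smul g x) i'
  exact ⟨j', fun v hv => by simpa using h _ (hi (h2 v hv)), h1⟩

variable [TopologicalSpace Y] [ContinuousSMul G Y]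

omit [IsTopologicalGroup G] in
theorem measurable_base [MeasurableSpace Y] [OpensMeasurableSpace Y] (hO : Bas O) {X : Type}
    [MeasurableSpace X] {x y : X → Y} (hx : Measurable x) (hy : Measurable y) (i j : ℕ) :
    Measurable fun a => (game U O).base (x a) i (y a) j := by
  have : ∀ i k, Measurable fun y : Y => ∃ u ∈ U i, u • y ∈ O k := fun i k => by
    refine measurableSet_setOfPred.1 (IsOpen.measurableSet ?_)
    simp only [ofPred_exists, ← exists_prop]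
    exact isOpen_iUnion fun u => isOpen_iUnion fun _ =>
      (hO.1 k).1.preimage (continuous_const_smul u)
  exact Measurable.forall fun k => ((this i k).comp hx).imp ((this j k).comp hy)

omit [Group G] [IsTopologicalGroup G] in
theorem exists_lim [PolishSpace G] (hU : Bas U) : ∃ sm : ℕ → ℕ → ℕ, (∀ n i, U (sm n i) ⊆ U i) ∧
    ∀ s : ℕ → ℕ, (∀ n, ∃ k, U k ⊆ U (s n) ∧ U (s (n + 1)) ⊆ U (sm n k)) →
      ∃ g, (∀ n, g ∈ U (s n)) ∧ ∀ W, IsOpen W → g ∈ W → ∃ n, U (s n) ⊆ W := by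
  let := TopologicalSpace.upgradeIsCompletelyMetrizable G
  have : ∀ n i : ℕ, ∃ k, closure (U k) ⊆ U i ∧ ∀ a ∈ U k, ∀ b ∈ U k, dist a b ≤ 1 / (n + 1) := by
    intro n i
    obtain ⟨v, hv⟩ := (hU.1 i).2
    obtain ⟨r, hr, h⟩ := Metric.nhds_basis_closedBall.mem_iff.1 ((hU.1 i).1.mem_nhds hv)
    obtain ⟨k, -, hk⟩ := hU.2 _ Metric.isOpen_ball v
      (Metric.mem_ball_self (lt_min hr (half_pos (Nat.one_div_pos_of_nat (n := n)))))
    refine ⟨k, (closure_mono (hk.trans (Metric.ball_subset_ball (min_le_left _ _)))).trans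
      (Metric.closure_ball_subset_closedBall.trans h), fun a ha b hb => ?_⟩
    have h1 := (Metric.mem_ball.1 (hk ha)).trans_le (min_le_right _ _)
    have h2 := (Metric.mem_ball.1 (hk hb)).trans_le (min_le_right _ _)
    linarith [dist_triangle_right a b v]
  choose sm h1 h2 using this
  refine ⟨sm, fun n i => subset_closure.trans (h1 n i), fun s hs => ?_⟩
  choose k hk hs using hs
  have an : Antitone fun n => U (s n) := antitone_nat_of_succ_le fun n =>
    (hs n).trans (subset_closure.trans ((h1 n _).trans (hk n)))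
  choose a ha using fun n => (hU.1 (s n)).2
  have h3 : ∀ n m, n + 1 ≤ m → a m ∈ U (sm n (k n)) := fun n m h => hs n (an h (ha m))
  obtain ⟨g, hg⟩ := cauchySeq_tendsto_of_complete (u := a) (Metric.cauchySeq_iff.2 fun ε hε => by
    obtain ⟨n, hn⟩ := exists_nat_one_div_lt hε
    exact ⟨n + 1, fun m hm k hk => (h2 n _ _ (h3 n m hm) _ (h3 n k hk)).trans_lt hn⟩)
  have h4 : ∀ n, g ∈ U (s n) := fun n => hk n (h1 n _
    (mem_closure_of_tendsto hg ((eventually_ge_atTop (n + 1)).mono (h3 n))))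
  refine ⟨g, h4, fun W hW hg => ?_⟩
  obtain ⟨ε, hε, h⟩ := Metric.isOpen_iff.1 hW g hg
  obtain ⟨n, hn⟩ := exists_nat_one_div_lt hε
  exact ⟨n + 1, fun b hb => h ((h2 n _ _ (hs n hb) _ (hs n (h4 _))).trans_lt hn)⟩

omit [IsTopologicalGroup G] in
theorem orbit_of_bf [PolishSpace G] [T2Space Y] (hU : Bas U) (hO : Bas O) {x y : Y}
    {S T : ℕ → ℕ → Prop} (h0 : ∀ i j, S i j → (game U O).base x i y j)
    (h1 : ∀ i j, S i j → (game U O).St T i j) (h2 : ∀ j i, T j i → (game U O).St S j i)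
    {i j : ℕ} (h : S i j) : ∃ g g' : G, g • x = g' • y := by
  obtain ⟨sm, h3, h4⟩ := exists_lim hU
  have : ∀ (n : ℕ) (p : {p : ℕ × ℕ // S p.1 p.2}), ∃ q : {p : ℕ × ℕ // S p.1 p.2},
      U q.1.1 ⊆ U (sm n p.1.1) ∧ ∃ k, U k ⊆ U p.1.2 ∧ U q.1.2 ⊆ U (sm n k) := fun n p => by
    obtain ⟨j', e1, e2⟩ := h1 _ _ p.2 _ (h3 n _)
    obtain ⟨i', e3, e4⟩ := h2 _ _ e2 _ (h3 n _)
    exact ⟨⟨(i', _), e4⟩, e3, j', e1, Subset.rfl⟩
  choose nx e1 e2 using this
  let s : ℕ → {p : ℕ × ℕ // S p.1 p.2} := fun n => Nat.rec ⟨(i, j), h⟩ nx n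
  obtain ⟨g, hg, -⟩ := h4 (fun n => (s n).1.1) fun n => ⟨_, Subset.rfl, e1 n (s n)⟩
  obtain ⟨g', -, hg'⟩ := h4 (fun n => (s n).1.2) fun n => e2 n (s n)
  refine ⟨g, g', of_not_not fun hne => ?_⟩
  obtain ⟨A, B, hA, hB, a, b, hd⟩ := t2_separation hne
  obtain ⟨k, a', hk⟩ := hO.2 A hA _ a
  obtain ⟨n, hn⟩ := hg' _ (hB.preimage (continuous_id.smul continuous_const)) b
  obtain ⟨v, hv, hv'⟩ := h0 _ _ (s n).2 k ⟨g, hg n, a'⟩
  exact disjoint_left.1 hd (hk hv') (hn hv)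

omit [IsTopologicalGroup G] in
/-- the orbit of `x` is described by the game at a stable level -/
theorem orbit_of_hl [PolishSpace G] [T2Space Y] (hU : Bas U) (hO : Bas O) {x y : Y}
    {δ : Ordinal.{0}} (hs : ∀ i j, (game U O).HL δ x i x j → (game U O).HL (δ + 1 + 1) x i x j)
    (H : ∀ j, ∃ i, (game U O).HL (δ + 1 + 1) x i y j) : ∃ g : G, g • x = y := by
  obtain ⟨i, hi⟩ := H 0
  obtain ⟨g, g', e⟩ := orbit_of_bf hU hO (S := fun i j => (game U O).HL (δ + 1) x i y j)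
    (T := fun j i => (game U O).HL (δ + 1) y j x i) (fun _ _ h => (Gm.HL_iff.1 h).1)
    (fun _ _ => Gm.forth hs H) (fun _ _ => Gm.back hs H) hi.pred
  exact ⟨g'⁻¹ * g, by rw [mul_smul, e, inv_smul_smul]⟩

end action

end

end Pool.Agent.P.MP_488d72_lc.C
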