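import Mathlib
import Pool.Agent.P.MP_488d72_lc.CTree

/-! The cut-off ordinal `sig z` and the equivalence relation. -/

set_option autoImplicit false

namespace Pool.Agent.P.MP_488d72_lc.C

open Ordinal Set MeasureTheory Filter Topology

noncomputable section

abbrev N : Type := ℕ → ℕ

def ev (z : N) : N := fun n => z (2 * n)
def od (z : N) : N := fun n => z (2 * n + 1)
def join (z a : N) : N := fun n => if n % 2 = 0 then z (n / 2) else a (n / 2)

theorem ev_join (z a : N) : ev (join z a) = z := funext fun n => by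
  rw [ev, join, if_pos (by omega), show 2 * n / 2 = n by omega]
theorem od_join (z a : N) : od (join z a) = a := funext fun n => by
  rw [od, join, if_neg (by omega), show (2 * n + 1) / 2 = n by omega]
theorem measurable_ev : Measurable ev := measurable_pi_lambda _ fun _ => measurable_pi_apply _
theorem measurable_od : Measurable od := measurable_pi_lambda _ fun _ => measurable_pi_apply _

variable {x t z a : N} {α β : Ordinal.{0}} {b c : ℕ} {X : Type} [MeasurableSpace X]

theorem measurable_join {z a : X → N} (hz : Measurable z) (ha : Measurable a) :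
    Measurable fun x => join (z x) (a x) := measurable_pi_lambda _ fun n => by
  unfold join
  split_ifs
  exacts [(measurable_pi_apply _).comp hz, (measurable_pi_apply _).comp ha]

/-- the height of the well-founded part -/
def hgt (x : N) : Ordinal.{0} := ⨆ n : {n // rk x n < ω₁}, rk x n

theorem hgt_lt (x : N) : hgt x < ω₁ := Ordinal.iSup_lt_omega_one fun n => n.2

theorem hgt_le_iff : hgt x ≤ α ↔ ∀ n, rk x n < ω₁ → rk x n ≤ α :=
  Ordinal.iSup_le_iff.trans Subtype.forall

theorem hgt_le_iff' (hβ : β < ω₁) : hgt x ≤ β ↔ ∀ n, Le x (β + 1) n → Le x β n := by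
  simp only [hgt_le_iff, ← rk_le_iff hβ, ← rk_le_iff (succ_lt hβ)]
  refine ⟨fun h n hn => h n (hn.trans_lt (succ_lt hβ)), fun h n => ?_⟩
  generalize e : rk x n = α
  induction α using WellFoundedLT.induction generalizing n with
  | ind α ih =>
    subst e
    exact fun hn => h n ((rk_le_iff' (succ_lt hβ)).2 fun m hm =>
      (ih _ (rk_child_lt hn hm) m rfl ((rk_child_lt hn hm).trans hn)).trans_lt (lt_add_one β))

open Classical in
/-- the well-founded part -/
def wf (x : N) : N := fun n => if rk x n < ω₁ then 1 else 0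

theorem wf_iff {n : ℕ} : wf x n = 1 ↔ rk x n < ω₁ := by simp [wf]

open Classical in
def wfa (β : Ordinal.{0}) (x : N) : N := fun n => if Le x β n then 1 else 0

open Classical in
theorem wfa_eq (hβ : β < ω₁) (h : hgt x ≤ β) : wfa β x = wf x := funext fun n =>
  if_congr ((rk_le_iff hβ).symm.trans ⟨fun e => e.trans_lt hβ, hgt_le_iff.1 h n⟩) rfl rfl

theorem measurable_wfa (hβ : β < ω₁) : Measurable (wfa β) := measurable_pi_lambda _ fun n =>
  Measurable.ite (measurable_Le hβ n).setOf measurable_const measurable_const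

theorem measurable_hgt (hβ : β < ω₁) : Measurable fun x => hgt x ≤ β := by
  simp only [hgt_le_iff' hβ]
  exact Measurable.forall fun n => (measurable_Le (succ_lt hβ) n).imp (measurable_Le hβ n)

/-- the first forest -/
def T1 (z : N) : N := tree (ev z) z
/-- the second forest, with oracle `a` -/
def T2 (z a : N) : N := tree (od z) (join z a)

theorem measurable_T1 : Measurable T1 := measurable_tree measurable_ev measurable_id
theorem measurable_T2 {z a : X → N} (hz : Measurable z) (ha : Measurable a) :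
    Measurable fun x => T2 (z x) (a x) :=
  measurable_tree (measurable_od.comp hz) (measurable_join hz ha)

def hh (z : N) : Ordinal.{0} := max (hgt (T1 z)) (hgt (T2 z (wf (T1 z))))

/-- the cut-off ordinal -/
def sig (z : N) : Ordinal.{0} := hh z + 1 + 1

theorem hh_lt (z : N) : hh z < ω₁ := max_lt (hgt_lt _) (hgt_lt _)
theorem sig_lt (z : N) : sig z < ω₁ := succ_lt (succ_lt (hh_lt z))

theorem measurable_hh (hβ : β < ω₁) : Measurable fun z => hh z ≤ β := by
  have : (fun z => hh z ≤ β) = fun z => hgt (T1 z) ≤ β ∧ hgt (T2 z (wfa β (T1 z))) ≤ β := by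
    ext z
    rw [hh, max_le_iff]
    exact and_congr_right fun h => by rw [wfa_eq hβ h]
  rw [this]
  exact ((measurable_hgt hβ).comp measurable_T1).and ((measurable_hgt hβ).comp
    (measurable_T2 measurable_id ((measurable_wfa hβ).comp measurable_T1)))

theorem measurable_sig (hα : α < ω₁) : Measurable fun z => sig z ≤ α := by
  have : (fun z => sig z ≤ α) = fun z => ∃ β : Iic α, β.1 + 1 + 1 ≤ α ∧ hh z ≤ β.1 := by
    ext z
    exact ⟨fun h => ⟨⟨hh z, ((lt_add_one _).trans (lt_add_one _)).le.trans h⟩, h, le_rfl⟩,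
      fun ⟨β, h1, h2⟩ => (add_le_add_left (add_le_add_left h2 1) 1).trans h1⟩
  rw [this]
  have := (countable_Iic hα).to_subtype
  exact Measurable.exists fun β => measurable_const.and (measurable_hh (lt_of_le_of_lt β.2 hα))

/-- simulations -/
def SimR (x y : N) (Z : ℕ × ℕ → Bool) : Prop :=
  ∀ a b a', Z (a, b) = true → x a' = a + 1 → ∃ b', y b' = b + 1 ∧ Z (a', b') = true

theorem meas_ap {ι κ : Type} [MeasurableSpace κ] [MeasurableSingletonClass κ] {f : X → ι → κ}
    (hf : Measurable f) (i : ι) (k : κ) : Measurable fun x => f x i = k :=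
  Measurable.eq_const ((measurable_pi_apply i).comp hf) k

theorem measurable_SimR {x y : X → N} {Z : X → ℕ × ℕ → Bool} (hx : Measurable x)
    (hy : Measurable y) (hZ : Measurable Z) : Measurable fun a => SimR (x a) (y a) (Z a) :=
  Measurable.forall fun _ => Measurable.forall fun _ => Measurable.forall fun _ =>
    (meas_ap hZ _ _).imp ((meas_ap hx _ _).imp
      (Measurable.exists fun _ => (meas_ap hy _ _).and (meas_ap hZ _ _)))

open Classical in
def simz (x y : N) : ℕ × ℕ → Bool := fun p => decide (rk x p.1 ≤ rk y p.2)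

open Classical in
theorem simR_simz (x y : N) : SimR x y (simz x y) := fun a b a' h h' =>
  (rel_rk a b a' (of_decide_eq_true h) h').imp fun _ e => ⟨e.1, decide_eq_true e.2⟩

/-- `a` is the part of `x` simulated below the node `c` of `t`, the rest is ill-founded -/
def Cov (x t : N) (c : ℕ) (a : N) (Z : ℕ × ℕ → Bool) : Prop :=
  (∀ n, ¬ a n = 1 → a n = 0 ∧ ∃ m, x m = n + 1 ∧ ¬ a m = 1) ∧
    (∀ n, a n = 1 → Z (n, c) = true) ∧ SimR x t Z

theorem measurable_Cov {x t a : X → N} {Z : X → ℕ × ℕ → Bool} (hx : Measurable x)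
    (ht : Measurable t) (c : ℕ) (ha : Measurable a) (hZ : Measurable Z) :
    Measurable fun p => Cov (x p) (t p) c (a p) (Z p) :=
  (Measurable.forall fun _ => (meas_ap ha _ _).not.imp ((meas_ap ha _ _).and
    (Measurable.exists fun _ => (meas_ap hx _ _).and (meas_ap ha _ _).not))).and
    ((Measurable.forall fun _ => (meas_ap ha _ _).imp (meas_ap hZ _ _)).and
      (measurable_SimR hx ht hZ))

open Classical in
theorem cov_wf (h : hgt x ≤ rk t c) : Cov x t c (wf x) (simz x t) := by
  refine ⟨fun n hn => ?_, fun n hn => decide_eq_true (hgt_le_iff.1 h n (wf_iff.1 hn)),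
    simR_simz x t⟩
  rw [wf_iff] at hn
  obtain ⟨m, h1, h2⟩ := exists_child_top ((rk_le_omega x n).eq_or_lt.resolve_right hn)
  exact ⟨if_neg hn, m, h1, fun e => (wf_iff.1 e).ne h2⟩

theorem Cov.eq {Z : ℕ × ℕ → Bool} (h : Cov x t c a Z) (hc : rk t c < ω₁) :
    a = wf x ∧ hgt x ≤ rk t c := by
  have h1 : ∀ n, ¬ a n = 1 → rk x n = ω₁ := fun n =>
    rk_top (D := fun n => ¬ a n = 1) fun n hn => (h.1 n hn).2
  have h2 : ∀ n, a n = 1 → rk x n ≤ rk t c := fun n hn =>
    rk_le_of_rel (Z := fun a b => Z (a, b) = true) h.2.2 (h.2.1 n hn)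
  refine ⟨funext fun n => ?_, hgt_le_iff.2 fun n hn => h2 n (of_not_not fun e => hn.ne (h1 n e))⟩
  by_cases e : a n = 1
  · rw [e, wf_iff.2 ((h2 n e).trans_lt hc)]
  · rw [(h.1 n e).1, wf, if_neg (h1 n e).not_lt]

theorem succ_le_rk (hβ : β < ω₁) (hc : t c = b + 1) (h : β ≤ rk t c) : β + 1 ≤ rk t b := by
  rcases (rk_le_omega t b).eq_or_lt with e | e
  exacts [e ▸ (succ_lt hβ).le, Order.add_one_le_of_lt (h.trans_lt (rk_child_lt e hc))]

abbrev Wt : Type := (N × N) × ((ℕ × ℕ → Bool) × (ℕ × ℕ → Bool))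

def TopW (p : N × N) (w : Wt) : Prop :=
  ∃ b c, p.2 b = 0 + 1 ∧ p.2 c = b + 1 ∧ Cov (T1 p.1) p.2 c w.1.1 w.2.1 ∧
    Cov (T2 p.1 w.1.1) p.2 c w.1.2 w.2.2

theorem measurable_TopW {p : X → N × N} {w : X → Wt} (hp : Measurable p) (hw : Measurable w) :
    Measurable fun x => TopW (p x) (w x) :=
  Measurable.exists fun _ => Measurable.exists fun c => (meas_ap hp.snd _ _).and
    ((meas_ap hp.snd _ _).and ((measurable_Cov (measurable_T1.comp hp.fst) hp.snd c hw.fst.fst
      hw.snd.fst).and (measurable_Cov (measurable_T2 hp.fst hw.fst.fst) hp.snd c hw.fst.snd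
      hw.snd.snd)))

theorem top_iff (p : N × N) : sig p.1 ≤ rk p.2 0 ↔ ∃ w, TopW p w := by
  constructor
  · intro h
    obtain ⟨b, hb, h⟩ := exists_child ((lt_add_one _).trans_le h)
    obtain ⟨c, hc, h⟩ := exists_child ((lt_add_one _).trans_le h)
    exact ⟨((_, _), _, _), b, c, hb, hc, cov_wf (max_le_iff.1 h).1, cov_wf (max_le_iff.1 h).2⟩
  · rintro ⟨w, b, c, hb, hc, h1, h2⟩
    refine succ_le_rk (succ_lt (hh_lt _)) hb (succ_le_rk (hh_lt _) hc ?_)
    rcases (rk_le_omega p.2 c).eq_or_lt with e | e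
    · exact e ▸ (hh_lt _).le
    · exact max_le (h1.eq e).2 ((h1.eq e).1 ▸ (h2.eq e).2)

theorem analytic_ex {X W : Type} [TopologicalSpace X] [SecondCountableTopology X] [MeasurableSpace X]
    [OpensMeasurableSpace X] [StandardBorelSpace X] [MeasurableSpace W] [StandardBorelSpace W] {q : X → W → Prop}
    (hq : Measurable fun p : X × W => q p.1 p.2) : AnalyticSet {x | ∃ w, q x w} := by
  convert hq.setOf.analyticSet_image measurable_fst using 1
  ext x
  simp

/-- the class invariant -/
def tau (p : N × N) : Ordinal.{0} := min (rk p.2 0) (sig p.1)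

theorem tau_lt (p : N × N) : tau p < ω₁ := (min_le_right _ _).trans_lt (sig_lt _)

theorem measurableSet_tau (hα : α < ω₁) : MeasurableSet {p | tau p ≤ α} := by
  simp only [tau, min_le_iff]
  exact (measurable_snd (measurableSet_rk_le hα)).union
    ((measurable_sig hα).comp measurable_fst).setOf

/-- the equivalence relation -/
def EE (p q : N × N) : Prop := p.1 = q.1 ∧ tau p = tau q

theorem analytic_EE : AnalyticSet {p : (N × N) × (N × N) | EE p.1 p.2} := by
  have : ∀ p q, EE p q ↔ ∃ w : ((ℕ × ℕ → Bool) × (ℕ × ℕ → Bool)) × (Wt × Wt), p.1 = q.1 ∧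
      (((w.1.1 (0, 0) = true ∧ SimR p.2 q.2 w.1.1) ∧ w.1.2 (0, 0) = true ∧ SimR q.2 p.2 w.1.2) ∨
        (TopW p w.2.1 ∧ TopW q w.2.2)) := fun p q => by
    constructor
    · rintro ⟨h1, h2⟩
      by_cases e : rk p.2 0 = rk q.2 0
      · obtain ⟨Z, hZ⟩ := exists_sim e.le
        obtain ⟨Z', hZ'⟩ := exists_sim e.ge
        exact ⟨((Z, Z'), default), h1, .inl ⟨hZ, hZ'⟩⟩
      · rw [tau, tau, h1] at h2
        have k : sig q.1 ≤ rk p.2 0 ∧ sig q.1 ≤ rk q.2 0 := by
          grind
        obtain ⟨w, hw⟩ := (top_iff p).1 (h1 ▸ k.1)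
        obtain ⟨w', hw'⟩ := (top_iff q).1 k.2
        exact ⟨(default, w, w'), h1, .inr ⟨hw, hw'⟩⟩
    · rintro ⟨w, h1, ⟨h2, h3⟩ | ⟨h2, h3⟩⟩ <;> refine ⟨h1, ?_⟩
      · rw [tau, tau, h1, (rk_le_of_sim h2).antisymm (rk_le_of_sim h3)]
      · rw [tau, tau, min_eq_right ((top_iff p).2 ⟨_, h2⟩), min_eq_right ((top_iff q).2 ⟨_, h3⟩), h1]
  simp only [this]
  refine analytic_ex ((Measurable.eq (by fun_prop) (by fun_prop)).and (Measurable.or ?_ ?_))
  · exact ((meas_ap (by fun_prop) _ _).and (measurable_SimR (by fun_prop) (by fun_prop)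
      (by fun_prop))).and ((meas_ap (by fun_prop) _ _).and (measurable_SimR (by fun_prop)
      (by fun_prop) (by fun_prop)))
  · exact (measurable_TopW (by fun_prop) (by fun_prop)).and
      (measurable_TopW (by fun_prop) (by fun_prop))

end

end Pool.Agent.P.MP_488d72_lc.C
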