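import Mathlib
import Pool.Agent.P.MP_488d72_lc.CForce
import Pool.Agent.P.MP_488d72_lc.CHj
import Pool.Agent.P.MP_488d72_lc.CSig

/-! The relation `EE` is ccc idealistic, has Borel classes and reduces to no orbit relation. -/

set_option autoImplicit false

universe u v

namespace Pool.Agent.P.MP_488d72_lc.C

open Ordinal Set MeasureTheory Filter Topology

noncomputable section

theorem exists_rk {α : Ordinal.{0}} (h : α < ω₁) : ∃ t, rk t 0 = α := by
  obtain ⟨g, -, hg⟩ := (frc_rk h).exists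
  exact ⟨_, hg⟩

section meas
variable {X : Type} [MeasurableSpace X] {Y : Type v} {M : Gm Y} {x y : X → Y} {t : X → N}
  {a : X → ℕ → Prop} {c d : X → ℕ × ℕ × ℕ → Bool}

theorem measurable_St {c : X → ℕ → ℕ → Prop} (h : ∀ i j, Measurable fun p => c p i j) (i j : ℕ) :
    Measurable fun p => M.St (c p) i j :=
  Measurable.forall fun _ => measurable_const.imp (Measurable.exists fun _ =>
    measurable_const.and (h _ _))

theorem measurable_Cert1 (h : ∀ i j, Measurable fun p => M.base (x p) i (x p) j)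
    (ht : Measurable t) (hc : Measurable c) : Measurable fun p => M.Cert1 (x p) (t p) (c p) :=
  Measurable.forall fun _ => Measurable.forall fun _ => Measurable.forall fun _ =>
    (meas_ap hc _ _).imp ((h _ _).and (Measurable.forall fun _ => (meas_ap ht _ _).imp
      (measurable_St (fun _ _ => meas_ap hc _ _) _ _)))

theorem measurable_Cert2 (h : ∀ i j, Measurable fun p => M.base (x p) i (y p) j)
    (ht : Measurable t) (ha : ∀ n, Measurable fun p => a p n) (hc : Measurable c)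
    (hd : Measurable d) : Measurable fun p => M.Cert2 (x p) (y p) (t p) (a p) (c p) (d p) :=
  Measurable.forall fun _ => (ha _).imp (Measurable.forall fun _ => Measurable.forall fun _ =>
    (h _ _).imp ((Measurable.forall fun _ => (meas_ap ht _ _).imp
      (measurable_St (fun _ _ => meas_ap hd _ _) _ _)).imp (meas_ap hc _ _)))

theorem measurable_Test (h : ∀ i j, Measurable fun p => M.base (x p) i (y p) j)
    (h' : ∀ i j, Measurable fun p => M.base (y p) i (x p) j) (ha : ∀ n, Measurable fun p => a p n)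
    (hd : Measurable d) : Measurable fun p => M.Test (x p) (y p) (a p) (d p) :=
  Measurable.forall fun _ => Measurable.exists fun _ => (h _ _).and (measurable_St (fun _ _ =>
    (h' _ _).and (measurable_St (fun _ _ => (h _ _).and (Measurable.forall fun _ => (ha _).imp
      (measurable_St (fun _ _ => meas_ap hd _ _) _ _))) _ _)) _ _)

end meas

theorem not_reducible {G : Type u} {Y : Type v} [Group G] [TopologicalSpace G]
    [IsTopologicalGroup G] [PolishSpace G] [TopologicalSpace Y] [PolishSpace Y] [MulAction G Y]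
    [ContinuousSMul G Y] [MeasurableSpace Y] [BorelSpace Y] {f : N × N → Y} (hf : Measurable f)
    (hE : ∀ p q, EE p q ↔ ∃ g : G, g • f p = f q) : False := by
  have : Nonempty Y := ⟨f default⟩
  obtain ⟨U, hU⟩ := exists_bas G
  obtain ⟨O, hO⟩ := exists_bas Y
  obtain ⟨t0, h0⟩ := exists_rk_top
  let M := game U O
  obtain ⟨e1, h1⟩ := bound (fun k => {p | ∃ c, M.Cert1 (f (p.1, t0)) p.2 c ∧
      c (0, (Nat.unpair k).1, (Nat.unpair k).2) = true}) fun k =>
    analytic_ex ((measurable_Cert1 (measurable_base hO (by fun_prop) (by fun_prop)) (by fun_prop)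
      (by fun_prop)).and (meas_ap measurable_snd _ _))
  have m0 : Measurable fun p : (N × N) × ((ℕ × ℕ × ℕ → Bool) × (ℕ × ℕ × ℕ → Bool)) => ev p.1.1 :=
    measurable_ev.comp (by fun_prop)
  have m1 : ∀ n, Measurable
      fun p : (N × N) × ((ℕ × ℕ × ℕ → Bool) × (ℕ × ℕ × ℕ → Bool)) => od p.1.1 n = 1 :=
    fun n => meas_ap (measurable_od.comp (by fun_prop)) _ _
  have m2 := measurable_base (U := U) hO (hf.comp (m0.prodMk (measurable_const (a := t0))))
    (hf.comp (m0.prodMk measurable_fst.snd))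
  have m3 := measurable_base (U := U) hO (hf.comp (m0.prodMk measurable_fst.snd))
    (hf.comp (m0.prodMk (measurable_const (a := t0))))
  obtain ⟨e2, h2⟩ := bound (fun _ => {p | ∃ c : (ℕ × ℕ × ℕ → Bool) × (ℕ × ℕ × ℕ → Bool),
      M.Cert2 (f (ev p.1, t0)) (f (ev p.1, p.2)) (T1 (ev p.1)) (fun n => od p.1 n = 1) c.1 c.2 ∧
      M.Cert2 (f (ev p.1, p.2)) (f (ev p.1, t0)) (T1 (ev p.1)) (fun n => od p.1 n = 1) c.2 c.1 ∧
      ¬ M.Test (f (ev p.1, t0)) (f (ev p.1, p.2)) (fun n => od p.1 n = 1) c.2}) fun _ =>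
    analytic_ex ((measurable_Cert2 m2 (measurable_T1.comp m0) m1 (by fun_prop) (by fun_prop)).and
      ((measurable_Cert2 m3 (measurable_T1.comp m0) m1 (by fun_prop) (by fun_prop)).and
        (measurable_Test m2 m3 m1 (by fun_prop)).not))
  let z := join e1 e2
  have h1 := h1 z
  have h2 := h2 (join z (wf (T1 z))) 0
  rw [show tree e1 z = T1 z by rw [T1, ev_join]] at h1
  rw [show tree e2 (join z (wf (T1 z))) = T2 z (wf (T1 z)) by rw [T2, od_join]] at h2
  simp only [mem_ofPred_eq, ev_join, od_join, wf_iff] at h1 h2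
  let δ : Ordinal.{0} := ⨆ n : {n // rk (T1 z) n < ω₁}, rk (T1 z) n + 1
  have hδ : δ < ω₁ := Ordinal.iSup_lt_omega_one fun n => succ_lt n.2
  have hs : ∀ i j, M.HL δ (f (z, t0)) i (f (z, t0)) j →
      M.HL (δ + 1 + 1) (f (z, t0)) i (f (z, t0)) j := fun i j h => of_not_not fun hn => by
    obtain ⟨k1, k2⟩ := h1 (Nat.pair i j)
    rw [Nat.unpair_pair] at k1 k2
    have k3 := k2 fun t ⟨c, hc, hc'⟩ => (rk_le_omega t 0).lt_of_ne fun e =>
      hn (hc.hl hc' (e ▸ (succ_lt (succ_lt hδ)).le))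
    obtain ⟨t, ht⟩ := exists_rk (succ_lt k3)
    refine (lt_add_one _).not_ge (ht ▸ k1 t (Gm.exists_cert1 (ht ▸ succ_lt k3) (h.mono ?_)))
    exact ht ▸ Ordinal.le_iSup (fun n : {n // rk (T1 z) n < ω₁} => rk (T1 z) n + 1) ⟨_, k3⟩
  have ht0 : tau (z, t0) = sig z := min_eq_right (h0 ▸ (sig_lt z).le)
  have k3 := h2.2 fun t ⟨c, c1, c2, c3⟩ => (rk_le_omega t 0).lt_of_ne fun e => by
    obtain ⟨g, hg⟩ := (hE (z, t0) (z, t)).1
      ⟨rfl, ht0.trans (min_eq_right (e ▸ (sig_lt z).le)).symm⟩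
    exact c3 (Gm.test_of_rel (tr_step hU) (fun _ => Iff.rfl) c1 c2
      fun j => (exists_tr hU hg j).imp fun _ h => h.1)
  obtain ⟨t, ht⟩ := exists_rk (succ_lt k3)
  refine (lt_add_one _).not_ge (ht ▸ h2.1 t ⟨(_, _), Gm.cert2_exact _, Gm.cert2_exact _, fun h => ?_⟩)
  have k4 : rk t 0 < sig z := ht ▸ (add_le_add_left
    ((hgt_le_iff.1 le_rfl _ k3).trans (le_max_right _ _)) 1).trans_lt (lt_add_one (hh z + 1))
  refine k4.ne' (ht0.symm.trans (((hE _ _).2 (orbit_of_hl hU hO hs (Gm.hl_of_test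
    (fun β hβ => ?_) h))).2.trans (min_eq_left k4.le)))
  obtain ⟨n, hn⟩ := Ordinal.lt_iSup_iff.1 hβ
  exact ⟨n, n.2, Order.lt_add_one_iff.1 hn⟩

/-- The ideal attached to a class `C`. -/
def idl (C : Set (N × N)) : Set (Set (N × N)) :=
  {S | S ⊆ C ∧ ∀ p ∈ C, Frc (rt (tau p)) 1 (sec (tau p) S p.1)ᶜ}

variable {C S T : Set (N × N)} {p : N × N}

theorem mem_idl : S ∈ idl {q | EE p q} ↔
    S ⊆ {q | EE p q} ∧ Frc (rt (tau p)) 1 (sec (tau p) S p.1)ᶜ :=
  and_congr_right fun _ => ⟨fun h => h p ⟨rfl, rfl⟩, fun h q hq => by rwa [← hq.1, ← hq.2]⟩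

theorem frc_class (p : N × N) : Frc (rt (tau p)) 1 (sec (tau p) {q | EE p q} p.1) :=
  (frc_rk (tau_lt p)).mono fun g hg => ⟨rfl, by
    rw [show tau (p.1, code (up g)) = min _ (sig p.1) from rfl, hg]
    exact (min_eq_left (min_le_right _ _)).symm⟩

theorem empty_mem_idl (C : Set (N × N)) : ∅ ∈ idl C :=
  ⟨empty_subset _, fun _ _ => frc_of_subset fun _ _ => notMem_empty _⟩

theorem idl_mono (hS : S ∈ idl C) (h : T ⊆ S) : T ∈ idl C :=
  ⟨h.trans hS.1, fun x hx => (hS.2 x hx).mono fun _ hg hT => hg (h hT)⟩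

theorem iUnion_mem_idl {S : ℕ → Set (N × N)} (hS : ∀ n, S n ∈ idl C) : ⋃ n, S n ∈ idl C := by
  refine ⟨iUnion_subset fun n => (hS n).1, fun x hx => ?_⟩
  refine (frc_iInter.mpr fun n => (hS n).2 x hx).mono fun g hg => ?_
  simpa [sec] using hg

theorem class_not_mem_idl (p : N × N) : {q | EE p q} ∉ idl {q | EE p q} := fun h => by
  obtain ⟨g, -, h1, h2⟩ := ((mem_idl.1 h).2.and (frc_class p)).exists
  exact h1 h2

theorem measurableSet_idl {A : Set ((N × N) × (N × N))} (hA : MeasurableSet A) :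
    MeasurableSet {p | {q | EE p q ∧ (p, q) ∈ A} ∈ idl {q | EE p q}} := by
  have hm : Measurable fun r : (N × N) × N => (r.1, (r.1.1, r.2)) := by fun_prop
  convert measurableSet_frc (fun α => measurableSet_tau) (hm hA.compl) using 2 with p
  ext p
  rw [mem_idl]
  exact ⟨fun h => (h.2.and (frc_class p)).mono fun g hg hA' => hg.1 ⟨hg.2, hA'⟩,
    fun h => ⟨fun _ hy => hy.1, h.mono fun g hg hA' => hg hA'.2⟩⟩

theorem idl_ccc (p : N × N) {F : Set (Set (N × N))}
    (h1 : ∀ B ∈ F, MeasurableSet B ∧ B ⊆ {q | EE p q} ∧ B ∉ idl {q | EE p q})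
    (h2 : F.Pairwise fun B B' => B ∩ B' ∈ idl {q | EE p q}) : F.Countable :=
  have := countable_Let (tau_lt p)
  ccc (S := fun B => sec (tau p) B p.1) (fun B hB => baire_sec (h1 B hB).1 _)
    (fun B hB h => (h1 B hB).2.2 (mem_idl.2 ⟨(h1 B hB).2.1, h⟩))
    fun _ hB _ hB' e => (mem_idl.1 (h2 hB hB' e)).2

theorem measurableSet_class (p : N × N) : MeasurableSet {q | EE p q} := by
  have : {q | EE p q} = ({q | q.1 = p.1} ∩ {q | tau q ≤ tau p}) \
      ⋃ β ∈ Iio (tau p), {q | tau q ≤ β} := by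
    ext q
    simp only [EE, mem_iUnion, exists_prop, mem_ofPred_eq, mem_Iio, Set.mem_sdiff, mem_inter_iff]
    exact ⟨fun h => ⟨⟨h.1.symm, h.2.ge⟩, fun ⟨β, h1, h2⟩ => h1.not_ge (h.2.trans_le h2)⟩,
      fun h => ⟨h.1.1.symm, (h.1.2.eq_or_lt.resolve_right fun e => h.2 ⟨_, e, le_rfl⟩).symm⟩⟩
  rw [this]
  exact ((Measurable.eq_const measurable_fst _).setOf.inter (measurableSet_tau (tau_lt p))).diff
    (MeasurableSet.biUnion (countable_Iio (tau_lt p)) fun β hβ =>
      measurableSet_tau (lt_trans hβ (tau_lt p)))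

end

end Pool.Agent.P.MP_488d72_lc.C
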