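import Mathlib

set_option autoImplicit false

namespace Pool.Agent.P.MP_488d72_lc

open Set MeasureTheory Metric Filter Topology

noncomputable section

theorem measurable_sInf_nat {X : Type*} [MeasurableSpace X] {p : ℕ → X → Prop}
    (hp : ∀ n, Measurable (p n)) : Measurable fun x => sInf {n | p n x} := by
  refine measurable_to_countable' fun n => ?_
  have : (fun x => sInf {n | p n x}) ⁻¹' {n} =
      {x | (p n x ∧ ∀ m, m < n → ¬ p m x) ∨ (n = 0 ∧ ∀ m, ¬ p m x)} := by
    ext x
    simp only [mem_preimage, mem_singleton_iff, mem_ofPred_eq]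
    by_cases h : {n | p n x}.Nonempty
    · constructor
      · rintro rfl
        exact Or.inl ⟨Nat.sInf_mem h, fun m hm => Nat.notMem_of_lt_sInf hm⟩
      · rintro (⟨h1, h2⟩ | ⟨-, h2⟩)
        · refine le_antisymm (Nat.sInf_le h1) ?_
          by_contra hcon
          exact h2 _ (not_le.mp hcon) (Nat.sInf_mem h)
        · obtain ⟨m, hm⟩ := h
          exact absurd hm (h2 m)
    · rw [not_nonempty_iff_eq_empty] at h
      have h' : ∀ m, ¬ p m x := fun m hm => (eq_empty_iff_forall_notMem.mp h m) hm
      rw [h, Nat.sInf_empty]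
      constructor
      · rintro rfl
        exact Or.inr ⟨rfl, h'⟩
      · rintro (⟨h1, -⟩ | ⟨h1, -⟩)
        · exact absurd h1 (h' n)
        · exact h1.symm
  rw [this]
  exact (((hp n).and (Measurable.forall fun m => measurable_const.imp (hp m).not)).or
    (measurable_const.and (Measurable.forall fun m => (hp m).not))).setOf

section selector

variable {G Y : Type*} [MetricSpace G] (u : ℕ → G) (π : G → Y)

/-- Successive approximations to a canonical point in the fibre of `π` through `g`. -/
def idx : ℕ → G → ℕ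
  | 0, g => sInf {n | ∃ g', π g' = π g ∧ g' ∈ ball (u n) 1}
  | k + 1, g => sInf {n | ∃ g', π g' = π g ∧
      g' ∈ ball (u n) ((1 / 2) ^ (k + 1)) ∩ ball (u (idx k g)) ((1 / 2) ^ k)}

variable {u π}

theorem idx_congr {g h : G} (H : π g = π h) (k : ℕ) : idx u π k g = idx u π k h := by
  induction k with
  | zero => simp only [idx, H]
  | succ k ih => simp only [idx, H, ih]

theorem idx_succ (hu : DenseRange u) (g : G) (k : ℕ)
    (h : ∃ g', π g' = π g ∧ g' ∈ ball (u (idx u π k g)) ((1 / 2) ^ k)) :
    ∃ g', π g' = π g ∧ g' ∈ ball (u (idx u π (k + 1) g)) ((1 / 2) ^ (k + 1)) ∩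
      ball (u (idx u π k g)) ((1 / 2) ^ k) := by
  obtain ⟨g', h1, h2⟩ := h
  obtain ⟨n, hn⟩ := hu.exists_dist_lt g' (show (0 : ℝ) < (1 / 2) ^ (k + 1) by positivity)
  have : {n | ∃ g', π g' = π g ∧
      g' ∈ ball (u n) ((1 / 2) ^ (k + 1)) ∩ ball (u (idx u π k g)) ((1 / 2) ^ k)}.Nonempty :=
    ⟨n, g', h1, hn, h2⟩
  exact Nat.sInf_mem this

theorem idx_spec (hu : DenseRange u) (g : G) (k : ℕ) :
    ∃ g', π g' = π g ∧ g' ∈ ball (u (idx u π k g)) ((1 / 2) ^ k) := by
  induction k with
  | zero =>
    obtain ⟨n, hn⟩ := hu.exists_dist_lt g one_pos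
    have : {n | ∃ g', π g' = π g ∧ g' ∈ ball (u n) 1}.Nonempty := ⟨n, g, rfl, hn⟩
    simpa [idx] using Nat.sInf_mem this
  | succ k ih =>
    obtain ⟨g', h1, h2⟩ := idx_succ hu g k ih
    exact ⟨g', h1, h2.1⟩

theorem idx_dist (hu : DenseRange u) (g : G) (k : ℕ) :
    dist (u (idx u π k g)) (u (idx u π (k + 1) g)) ≤ 2 * (1 / 2) ^ k := by
  obtain ⟨g', -, h2, h3⟩ := idx_succ hu g k (idx_spec hu g k)
  rw [mem_ball] at h2 h3
  have := dist_triangle_left (u (idx u π k g)) (u (idx u π (k + 1) g)) g'
  have h4 : ((1 : ℝ) / 2) ^ (k + 1) ≤ (1 / 2) ^ k := by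
    rw [pow_succ]
    have : (0 : ℝ) < (1 / 2) ^ k := by positivity
    linarith
  linarith

theorem measurable_idx [MeasurableSpace G] [OpensMeasurableSpace G]
    (hsat : ∀ U : Set G, IsOpen U → IsOpen {g | ∃ g', π g' = π g ∧ g' ∈ U}) (k : ℕ) :
    Measurable (idx u π k) := by
  induction k with
  | zero =>
    exact measurable_sInf_nat fun n =>
      measurableSet_setOfPred.mp (hsat _ isOpen_ball).measurableSet
  | succ k ih =>
    refine measurable_sInf_nat fun n => ?_
    have : (fun g => ∃ g', π g' = π g ∧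
        g' ∈ ball (u n) ((1 / 2) ^ (k + 1)) ∩ ball (u (idx u π k g)) ((1 / 2) ^ k)) =
        fun g => ∃ j, idx u π k g = j ∧ ∃ g', π g' = π g ∧
          g' ∈ ball (u n) ((1 / 2) ^ (k + 1)) ∩ ball (u j) ((1 / 2) ^ k) := by
      ext g
      simp
    rw [this]
    exact Measurable.exists fun j => (ih.eq_const j).and
      (measurableSet_setOfPred.mp (hsat _ (isOpen_ball.inter isOpen_ball)).measurableSet)

theorem exists_transversal [CompleteSpace G] [MeasurableSpace G] [OpensMeasurableSpace G]
    [TopologicalSpace Y] [T1Space Y] (hu : DenseRange u) (hπ : Continuous π)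
    (hsat : ∀ U : Set G, IsOpen U → IsOpen {g | ∃ g', π g' = π g ∧ g' ∈ U}) :
    ∃ T : Set G, MeasurableSet T ∧ InjOn π T ∧ π '' T = range π := by
  have hlim : Tendsto (fun k : ℕ => ((1 : ℝ) / 2) ^ k) atTop (𝓝 0) :=
    tendsto_pow_atTop_nhds_zero_of_lt_one (by norm_num) (by norm_num)
  refine ⟨{g | ∀ k, dist g (u (idx u π k g)) ≤ 4 * (1 / 2) ^ k}, ?_, ?_, ?_⟩
  · refine Measurable.setOf (Measurable.forall fun k => ?_)
    have : (fun g => dist g (u (idx u π k g)) ≤ 4 * (1 / 2) ^ k) =
        fun g => ∃ j, idx u π k g = j ∧ g ∈ closedBall (u j) (4 * (1 / 2) ^ k) := by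
      ext g
      simp
    rw [this]
    exact Measurable.exists fun j => ((measurable_idx hsat k).eq_const j).and
      (measurableSet_setOfPred.mp isClosed_closedBall.measurableSet)
  · intro g hg h hh H
    refine eq_of_dist_eq_zero (le_antisymm ?_ dist_nonneg)
    have : Tendsto (fun k : ℕ => 8 * ((1 : ℝ) / 2) ^ k) atTop (𝓝 0) := by
      simpa using hlim.const_mul 8
    refine ge_of_tendsto' this fun k => ?_
    have h1 := hg k
    have h2 := hh k
    rw [← idx_congr H] at h2
    have := dist_triangle_right g h (u (idx u π k g))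
    linarith
  · refine subset_antisymm (image_subset_range _ _) ?_
    rintro _ ⟨g, rfl⟩
    have hd := idx_dist (π := π) hu g
    obtain ⟨s, hs⟩ := cauchySeq_tendsto_of_complete
      (cauchySeq_of_le_geometric (1 / 2) 2 (by norm_num) hd)
    have hs' : ∀ k, dist (u (idx u π k g)) s ≤ 4 * (1 / 2) ^ k := fun k => by
      have := dist_le_of_le_geometric_of_tendsto (1 / 2) 2 (by norm_num) hd hs k
      refine this.trans (le_of_eq ?_)
      rw [show (1 - 1 / 2 : ℝ) = 1 / 2 by norm_num]
      ring
    have hπs : π s = π g := by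
      have hcl : IsClosed (π ⁻¹' {π g}) := isClosed_singleton.preimage hπ
      have : s ∈ closure (π ⁻¹' {π g}) := by
        rw [Metric.mem_closure_iff]
        intro ε hε
        have h5 : Tendsto (fun k : ℕ => 5 * ((1 : ℝ) / 2) ^ k) atTop (𝓝 0) := by
          simpa using hlim.const_mul 5
        obtain ⟨k, hk⟩ := (h5.eventually (gt_mem_nhds hε)).exists
        obtain ⟨g', h1, h2⟩ := idx_spec (π := π) hu g k
        refine ⟨g', h1, ?_⟩
        rw [mem_ball] at h2
        have h3 := hs' k
        have := dist_triangle_left s g' (u (idx u π k g))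
        rw [dist_comm g'] at h2
        linarith
      exact hcl.closure_subset this
    refine ⟨s, fun k => ?_, hπs⟩
    rw [idx_congr hπs, dist_comm]
    exact hs' k

end selector

/-- Miller's theorem: orbits of continuous actions of Polish groups are Borel. -/
theorem measurableSet_orbit {G Y : Type*} [Group G] [TopologicalSpace G] [IsTopologicalGroup G]
    [PolishSpace G] [TopologicalSpace Y] [T2Space Y] [MeasurableSpace Y] [BorelSpace Y]
    [MulAction G Y] [ContinuousSMul G Y] (y : Y) :
    MeasurableSet (range fun g : G => g • y) := by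
  let _ := TopologicalSpace.upgradeIsCompletelyMetrizable G
  borelize G
  have hπ : Continuous fun g : G => g • y := continuous_id.smul continuous_const
  obtain ⟨T, hT, hinj, himg⟩ := exists_transversal (TopologicalSpace.denseRange_denseSeq G) hπ
    (fun U hU => by
      have : {g : G | ∃ g', g' • y = g • y ∧ g' ∈ U} =
          ⋃ h : MulAction.stabilizer G y, (fun g => g * (h : G)) ⁻¹' U := by
        ext g
        simp only [mem_ofPred_eq, mem_iUnion, mem_preimage]
        constructor
        · rintro ⟨g', h1, h2⟩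
          refine ⟨⟨g⁻¹ * g', ?_⟩, by simpa using h2⟩
          rw [MulAction.mem_stabilizer_iff, mul_smul, h1, inv_smul_smul]
        · rintro ⟨h, hh⟩
          exact ⟨_, by rw [mul_smul, h.2], hh⟩
      rw [this]
      exact isOpen_iUnion fun h => hU.preimage (continuous_mul_const _))
  rw [← himg]
  exact hT.image_of_continuousOn_injOn hπ.continuousOn hinj

end

end Pool.Agent.P.MP_488d72_lc
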